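import Pool.Agent.Helper928.AltSuper
set_option autoImplicit false

namespace Pool.Agent.Helper928.AltData
open Pool.Agent.Helper928.AltSuper

inductive Tr (α : Type) : Type
  | l : α → Tr α
  | n : Tr α → Tr α → Tr α

noncomputable def Tr.get {α : Type} (t : Tr α) : ℕ → α :=
  Tr.rec (fun a _ => a) (fun _ _ f g k => cond (Nat.beq (k % 2) 0) (f (k / 2)) (g (k / 2))) t

open Tr

def e : Tr (List ℕ) := l []

def r0 : Tr (List ℕ) := (n (n (n (n (n (n (n (l [24744]) (l [1138352])) (n (l [581800, 614022]) e)) (n (n (l [368808, 402080, 449552]) e) (n (l [876600, 892592, 942416]) e))) (n (n (n (l [205136, 237232]) (l [1203930])) (n (l [762024, 795744, 842096]) e)) (n (n (l [483356, 499376, 549200]) e) (n (l [975016, 1007154]) e)))) (n (n (n (n (l [123216, 154976]) (l [1155205, 1171288])) (n (l [679978, 695984, 745808]) e)) (n (n (l [385192, 417456]) e) (n (l [958488, 974512, 991568, 1008204]) e))) (n (n (n (l [286384, 336208]) e) (n (l [778408, 810588]) e)) (n (n (l [565416,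 598912, 645824]) e) (n (l [1056887, 1072984, 1089704]) e))))) (n (n (n (n (n (l [73896, 90336, 106160]) (l [1105864, 1122472, 1138786])) (n (l [663888, 711024]) e)) (n (n (l [385360, 417708, 433840]) e) (n (l [876292, 892760, 926032]) e))) (n (n (n (l [205024, 221352, 237232]) e) (n (l [778576, 810756, 827056]) e)) (n (n (l [483104, 499544, 532816]) e) (n (l [1040720, 1087184]) e)))) (n (n (n (n (l [139040, 155480, 172368]) (l [1187648])) (n (l [679698, 696152, 729424]) e)) (n (n (l [467280, 514752]) e) (n (l [975184, 1007280, 1023664]) e))) (n (n (n (l [286510, 302936, 336208]) e) (n (l [860496, 907296]) e)) (n (n (l [581968, 614232, 630448]) e) (n (l [1040240, 1056649, 1090040]) e)))))) (n (n (n (n (n (n (l [41296, 57008]) (l [1106088, 1122136, 1138268])) (n (l [581856, 598184, 614316, 630448]) e)) (n (n (l [417456]) e) (n (l [876376]) e))) (n (n (n (l [221520, 253616]) e) (n (l [810672]) e)) (n (n (l [483160]) e) (n (l [975072, 991400, 1007448, 1023664]) e)))) (n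 (n (n (n (l [138928, 172368]) (l [1154904])) (n (l [679768]) e)) (n (n (l [385248, 401576, 417750, 433840]) e) (n (l [1007280]) e))) (n (n (n (l [286734, 302768, 352592]) e) (n (l [778464, 794792, 810882, 827056]) e)) (n (n (l [614064]) e) (n (l [1056600]) e))))) (n (n (n (n (n (l [90448, 106160]) (l [1154673, 1171624])) (n (l [679516, 729424]) e)) (n (n (l [401744, 450224]) e) (n (l [892704, 909144, 942416]) e))) (n (n (n (l [270672, 318480]) e) (n (l [794960, 843440]) e)) (n (n (l [499488, 515928, 549200]) e) (n (l [1040240, 1056411, 1073320, 1090040]) e)))) (n (n (n (n (l [188584, 221632, 253280]) (l [1187720])) (n (l [696096, 712536, 745808]) e)) (n (n (l [482950, 532816]) e) (n (l [958440, 974792, 991400, 1007714]) e))) (n (n (n (l [302880, 319320, 352592]) e) (n (l [876082, 926032]) e)) (n (n (l [598352, 646832]) e) (n (l [1105528, 1122696, 1139374]) e)))))))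
def r1 : Tr (List ℕ) := (n (n (n (n (n (n (n (l [41296]) (l [1155408])) (n (l [729424]) e)) (n (n (l [467280]) e) (n (l [991568]) e))) (n (n (n (l [303440]) e) (n (l [860496]) e)) (n (n (l [598352]) e) (n (l [1040240, 1056915, 1073320, 1090040]) e)))) (n (n (n (n (l [188752]) e) (n (l [794960]) e)) (n (n (l [532816]) e) (n (l [1040720]) e))) (n (n (n (l [385360]) e) (n (l [926032]) e)) (n (n (l [663888]) e) (n (l [1122640]) e))))) (n (n (n (n (n (l [123216]) e) (n (l [762192]) e)) (n (n (l [500048]) e) (n (l [1024336]) e))) (n (n (n (l [352592]) e) (n (l [893264]) e)) (n (n (l [631120]) e) e))) (n (n (n (n (l [254288]) (l [1204560])) (n (l [827728]) e)) (n (n (l [565584]) e) (n (l [1073488]) e))) (n (n (n (l [434512]) e) (n (l [958800]) e)) (n (n (l [696656]) e) (n (l [1106088, 1122472]) e)))))) (n (n (n (n (n (n (l [74064]) (l [1171792])) (n (l [745808]) e)) (n (n (l [483664]) e) (n (l [1007952]) e))) (n (n (n (l [319824]) e) (n (l [876880]) e)) (n (n (l [614736]) e)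 (n (l [1056817, 1073320, 1089704]) e)))) (n (n (n (n (l [221520]) (l [1188032])) (n (l [811344]) e)) (n (n (l [549200]) e) (n (l [1057104]) e))) (n (n (n (l [401744]) e) (n (l [942416]) e)) (n (n (l [680272]) e) (n (l [1139024]) e))))) (n (n (n (n (n (l [155984]) (l [1188176])) (n (l [778576]) e)) (n (n (l [516432]) e) (n (l [958488, 974904, 991400, 1007518]) e))) (n (n (n (l [368976]) e) (n (l [909648]) e)) (n (n (l [647504]) e) (n (l [1106256]) e)))) (n (n (n (n (l [270672]) (l [1204518])) (n (l [844112]) e)) (n (n (l [581968]) e) (n (l [1089872]) e))) (n (n (n (l [450896]) e) (n (l [975184]) e)) (n (n (l [713040]) e) e))))))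
def r2 : Tr (List ℕ) := (n (n (n (n (n (n (n (l [73896, 90224]) (l [1187648])) (n (l [778408, 810630]) e)) (n (n (l [565416, 598800, 646160]) e) (n (l [1056901, 1072984, 1089704]) e))) (n (n (n (l [385360, 433840]) e) (n (l [958512, 974568, 991624, 1008106]) e)) (n (n (l [679992, 695984, 745808]) e) (n (l [1106088, 1138226]) e)))) (n (n (n (n (l [270672, 318816]) (l [1204238])) (n (l [876614, 892592, 942416]) e)) (n (n (l [581800, 614064]) e) (n (l [1105584, 1122752, 1139276]) e))) (n (n (n (l [482992, 532816]) e) (n (l [975016, 1007196]) e)) (n (n (l [762024, 795632, 842432]) e) (n (l [1155219, 1171288]) e))))) (n (n (n (n (n (l [188584, 221520, 253616]) e) (n (l [860496, 907632]) e)) (n (n (l [581968, 614316, 630448]) e) (n (l [1040240, 1056677, 1090040]) e))) (n (n (n (l [385248, 401576, 433840]) e) (n (l [975184, 1007364, 1023664]) e)) (n (n (l [679726, 696152, 729424]) e) e))) (n (n (n (n (l [286734, 302880, 319320, 352592]) e) (n (l [876320, 892760, 926032]) e))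 (n (n (l [663888, 711360]) e) (n (l [1106088, 1122136, 1138352]) e))) (n (n (n (l [483132, 499544, 532816]) e) (n (l [1040720, 1087520]) e)) (n (n (l [778576, 810840, 827056]) e) (n (l [1154967]) e)))))) (n (n (n (n (n (n (l [123216, 155312]) (l [1187768])) (n (l [778464, 794792, 810924, 827056]) e)) (n (n (l [614064]) e) (n (l [1056600]) e))) (n (n (n (l [401744, 450224]) e) (n (l [1007280]) e)) (n (n (l [679768]) e) (n (l [1105976, 1138520]) e)))) (n (n (n (n (l [286748, 302768, 352592]) (l [1204056])) (n (l [876376]) e)) (n (n (l [581856, 598184, 614358, 630448]) e) (n (l [1138352]) e))) (n (n (n (l [483370, 499376, 549200]) e) (n (l [975072, 991400, 1007490, 1023664]) e)) (n (n (l [810672]) e) (n (l [1154904]) e))))) (n (n (n (n (n (l [221520, 253616]) (l [1203972])) (n (l [876124, 926032]) e)) (n (n (l [598352, 646832]) e) (n (l [1056831, 1073096]) e))) (n (n (n (l [467280, 515088]) e) (n (l [958440, 974792, 991400, 1007714]) e)) (n (n (l [679950, 696096, 712536,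 745808]) e) (n (l [1154715, 1171624]) e)))) (n (n (n (n (l [368808, 401968, 449888]) e) (n (l [876558, 892704, 909144, 942416]) e)) (n (n (l [679558, 729424]) e) (n (l [1105864, 1122472, 1138786]) e))) (n (n (n (l [483342, 499488, 515928, 549200]) e) (n (l [1040240, 1056453, 1073320, 1090040]) e)) (n (n (l [794960, 843440]) e) e))))))
def r3 : Tr (List ℕ) := (n (n (n (n (n (n (n (l [106832]) e) (n (l [811050]) e)) (n (n (l [647504]) e) (n (l [1056810]) e))) (n (n (n (l [417876]) e) (n (l [958488, 974904, 991400, 1007518]) e)) (n (n (l [679978]) e) (n (l [1138730]) e)))) (n (n (n (n (l [319824]) (l [1204266])) (n (l [876586]) e)) (n (n (l [614442]) e) (n (l [1105976, 1122472, 1138590]) e))) (n (n (n (l [483370]) e) (n (l [1007658]) e)) (n (n (l [844112]) e) (n (l [1155114]) e))))) (n (n (n (n (n (l [254288]) e) (n (l [909648]) e)) (n (n (l [614484]) e) (n (l [1056810]) e))) (n (n (n (l [417834]) e) (n (l [1007700]) e)) (n (n (l [679978]) e) e))) (n (n (n (n (l [286748])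 e) (n (l [876586]) e)) (n (n (l [713040]) e) (n (l [1138772]) e))) (n (n (n (l [483370]) e) (n (l [1089872]) e)) (n (n (l [811092]) e) (n (l [1155114]) e)))))) (n (n (n (n (n (n (l [155984]) (l [1187888])) (n (l [811050]) e)) e) (n e (n e (n (l [1138730]) e)))) (n (n (n (n (l [286762]) e) e) (n (n (l [614442]) e) e)) (n (n (n (l [483370]) e) (n (l [1007658]) e)) e))) (n (n (n (n (n e (l [1204266])) (n (l [876586]) e)) (n e (n (l [1056796]) e))) (n (n (n (l [516432]) e) e) (n (n (l [679964]) e) (n (l [1155114]) e)))) (n (n (n (n (l [450896]) e) (n (l [876572]) e)) (n (n (l [679978]) e) e)) (n (n (n (l [483356]) e) (n (l [1056810]) e)) e)))))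
def r4 : Tr (List ℕ) := (n (n (n (n (n (n (n (l [123216]) (l [1204560])) (n (l [926032]) e)) (n (n (l [663888]) e) (n (l [1122640]) e))) (n (n (n (l [500048]) e) (n (l [1040720]) e)) (n (n (l [794960]) e) (n (l [1155219, 1171624]) e)))) (n (n (n (n (l [368976]) e) (n (l [991568]) e)) (n (n (l [729424]) e) e)) (n (n (n (l [581968]) e) (n (l [1040240, 1056915, 1073320, 1090040]) e)) (n (n (l [860496]) e) e)))) (n (n (n (n (n (l [270672]) e) (n (l [958800]) e)) (n (n (l [696656]) e) (n (l [1106088, 1122472]) e))) (n (n (n (l [549200]) e) (n (l [1073488]) e)) (n (n (l [827728]) e) e))) (n (n (n (n (l [450896]) e) (n (l [1024336]) e)) (n (n (l [762192]) e) (n (l [1171792]) e))) (n (n (n (l [631120]) e) e) (n (n (l [893264]) e) (n (l [1188008]) e)))))) (n (n (n (n (n (n (l [188752]) (l [1204518])) (n (l [942416]) e)) (n (n (l [680272]) e) (n (l [1139024]) e))) (n (n (n (l [516432]) e) (n (l [1057104]) e)) (n (n (l [811344]) e) (n (l [1155121, 1171624]) e)))) (n (n (n (n (l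 [401744]) e) (n (l [1007952]) e)) (n (n (l [745808]) e) (n (l [1155408]) e))) (n (n (n (l [598352]) e) (n (l [1056817, 1073320, 1089704]) e)) (n (n (l [876880]) e) (n (l [1188032]) e))))) (n (n (n (n (n (l [319824]) e) (n (l [975184]) e)) (n (n (l [713040]) e) (n (l [1105976, 1122472, 1138590]) e))) (n (n (n (l [565584]) e) (n (l [1089872]) e)) (n (n (l [844112]) e) (n (l [1188176]) e)))) (n (n (n (n (l [467280]) e) (n (l [958488, 974904, 991400, 1007518]) e)) (n (n (l [778576]) e) e)) (n (n (n (l [647504]) e) (n (l [1106256]) e)) (n (n (l [909648]) e) e))))))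
def r5 : Tr (List ℕ) := (n (n (n (n (n (n (n (l [172368]) e) e) (n (n (l [679768, 745808]) e) (n (l [1138604]) e))) (n (n (n (l [483286]) e) (n (l [1056537, 1073320, 1089704]) e)) (n (n (l [810924]) e) e))) (n (n (n (n (l [401744]) e) (n (l [1007532]) e)) (n e (n (l [1154785, 1171624]) e))) (n e (n (n (l [876320, 942416]) e) (n (l [1187792]) e))))) (n (n (n (n (n (l [286664, 352592]) (l [1204182])) (n (l [991568]) e)) (n (n (l [679894]) e) (n (l [1138646]) e))) (n (n (n (l [483286]) e) (n (l [1056726]) e)) (n (n (l [810966]) e) e))) (n (n (n (n (l [417750]) e) (n (l [1007574]) e)) (n (n (l [794960]) e) (n (l [1155030]) e))) (n (n (n (l [614358]) e) (n (l [1122640]) e)) (n (n (l [876502]) e) (n (l [1187816]) e)))))) (n (n (n (n (n (n (l [221520]) (l [1204182])) (n (l [876502]) e)) e) (n (n (n (l [483286]) e) e) (n e (n (l [1155030]) e)))) (n (n (n (n (l [417708]) e) e) (n (n (l [679894]) e) e)) (n (n (n (l [614316]) e) (n (l [1056726]) e)) e))) (n (n (n (n (n (l [286678])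 e) e) (n (n (l [679894]) e) (n (l [1138646]) e))) (n (n (n (l [598352]) e) (n (l [1056726]) e)) (n (n (l [810966]) e) e))) (n (n (n (n (l [483216, 549200]) e) (n (l [1007574]) e)) (n e (n (l [1155030]) e))) (n (n (n (l [614358]) e) e) (n (n (l [876502]) e) (n (l [1204028]) e)))))))
def r6 : Tr (List ℕ) := (n (n (n (n (n (n (n (l [139376, 155816]) e) (n (l [876565]) e)) (n (n (l [679852, 696432, 712872]) e) (n (l [1138646]) e))) (n (n e (n (l [1056628, 1073264, 1089704]) e)) (n (n (l [810966]) e) (n (l [1155093]) e)))) (n (n (n (n (l [450896]) e) (n (l [1007574]) e)) (n (n (l [679957]) e) (n (l [1154904, 1171568]) e))) (n (n (n (l [614442]) e) (n (l [1056789]) e)) (n (n (l [876432, 893040, 909480]) e) (n (l [1187816]) e))))) (n (n (n (n (n (l [286692, 303216, 319656]) (l [1204210])) (n (l [958488, 974904, 991400, 1007518]) e)) e) (n (n (n (l [483321]) e) e) e)) (n (n (n (n (l [417778]) e) e) (n (n (l [844112]) e) e)) (n (n e (n (l [1105976, 1122472, 1138590]) e)) e))))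 (n (n (n (n (n (n (l [254288]) e) (n (l [876537]) e)) e) (n (n (n (l [483314]) e) e) (n e (n (l [1155065]) e)))) (n (n (n (n (l [417750]) e) e) (n (n (l [679929]) e) e)) (n (n (n (l [614358]) e) (n (l [1056761]) e)) e))) (n (n (n (n (n (l [286706]) e) (n (l [1007658]) e)) (n (n (l [679922]) e) (n (l [1138674]) e))) (n (n (n (l [647504]) e) (n (l [1056754]) e)) (n (n (l [810994]) e) (n (l [1187864]) e)))) (n (n (n (n (l [483272, 499824, 516264]) e) (n (l [1007602]) e)) (n (n (l [811050]) e) (n (l [1155058]) e))) (n (n (n (l [614386]) e) (n (l [1138730]) e)) (n (n (l [876530]) e) (n (l [1204126]) e)))))))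
def r7 : Tr (List ℕ) := (n (n (n (n (n (n (n (l [188584, 221408]) e) (n (l [975016, 1007238]) e)) (n (n (l [762024, 795520, 842768]) e) (n (l [1155233, 1171288]) e))) (n (n (n (l [581968, 630448]) e) (n (l [1105640, 1122808, 1139178]) e)) (n (n (l [876628, 892592, 942416]) e) (n (l [1187744]) e)))) (n (n (n (n (l [467280, 515424]) e) (n (l [1056915, 1072984, 1089704]) e)) (n (n (l [778408, 810672]) e) e)) (n (n (n (l [679600, 729424]) e) (n (l [1106088, 1138268]) e)) (n (n (l [958536, 974624, 991680, 1008008]) e) (n (l [1204252]) e))))) (n (n (n (n (n (l [368808, 401856, 450224]) e) (n (l [1040720, 1087856]) e)) (n (n (l [778576, 810924, 827056]) e) (n (l [1154995]) e))) (n (n (n (l [581856, 598184, 630448]) e) (n (l [1106088, 1122136, 1138436]) e)) (n (n (l [876348, 892760, 926032]) e) e))) (n (n (n (n (l [483356, 499488, 515928, 549200]) e) (n (l [1040240, 1056705, 1090040]) e)) (n (n (l [860496, 907968]) e) (n (l [1187816]) e))) (n (n (n (l [679754, 696152, 729424])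 e) e) (n (n (l [975184, 1007448, 1023664]) e) (n (l [1204133]) e)))))) (n (n (n (n (n (n (l [270672, 319152]) e) (n (l [975072, 991400, 1007532, 1023664]) e)) (n (n (l [810672]) e) (n (l [1154904]) e))) (n (n (n (l [598352, 646832]) e) (n (l [1138352]) e)) (n (n (l [876376]) e) (n (l [1187800]) e)))) (n (n (n (n (l [483384, 499376, 549200]) e) (n (l [1056600]) e)) (n (n (l [778464, 794792, 810966, 827056]) e) (n (l [1187648]) e))) (n (n (n (l [680006, 695984, 745808]) e) (n (l [1105976, 1138562]) e)) (n (n (l [1007280]) e) (n (l [1204056]) e))))) (n (n (n (n (n (l [401744, 450224]) e) (n (l [1040240, 1056495, 1073320, 1090040]) e)) (n (n (l [794960, 843440]) e) (n (l [1155149, 1171400]) e))) (n (n (n (l [663888, 711696]) e) (n (l [1105864, 1122472, 1138786]) e)) (n (n (l [876572, 892704, 909144, 942416]) e) (n (l [1204014]) e)))) (n (n (n (n (l [565416, 598688, 646496]) e) (n (l [1056845, 1073096]) e)) (n (n (l [876166, 926032]) e) e)) (n (n (n (l [679964, 696096, 712536,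 745808]) e) (n (l [1154757, 1171624]) e)) (n (n (l [958440, 974792, 991400, 1007714]) e) e))))))
def r8 : Tr (List ℕ) := (n (n (n (n (n (n (n (l [237904]) e) e) (n (n (l [810756, 827728]) e) (n (l [1155030]) e))) (n (n e (n (l [1106088, 1122472, 1138268]) e)) (n (n (l [876502]) e) e))) (n (n (n (n (l [483160, 500048]) e) (n (l [1056726]) e)) (n e (n (l [1187720]) e))) (n e (n (n (l [1007280, 1024336]) e) (n (l [1204182]) e))))) (n (n (n (n (n (l [417708, 434512]) e) (n (l [1056348, 1073488]) e)) e) (n (n (n (l [614358]) e) e) (n e (n (l [1203930]) e)))) (n (n (n (n (l [483286]) e) e) (n (n (l [876208, 893264]) e) e)) (n (n e (n (l [1154568, 1171792]) e)) e)))) (n (n (n (n (n (n (l [286636, 303440]) e) (n (l [1007574]) e)) e) (n (n (n (l [614316]) e) e) (n e (n (l [1187816]) e)))) (n (n (n (n (l [483286]) e) e) (n (n (l [810966]) e) e)) (n (n (n (l [679894]) e) (n (l [1138646]) e)) e))) (n (n (n (n (n (l [417708]) e) e) (n (n (l [810924]) e) (n (l [1155030]) e))) (n (n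 (n (l [679684, 696656]) e) (n (l [1138604]) e)) (n (n (l [876502]) e) e))) (n (n (n (n (l [614232, 631120]) e) (n (l [1056726]) e)) (n e (n (l [1187792]) e))) (n (n (n (l [679894]) e) e) (n (n (l [1007532]) e) e))))))
def r9 : Tr (List ℕ) := (n (n (n (n (n (n (n (l [254288]) e) (n (l [1007658]) e)) (n (n (l [844112]) e) (n (l [1155114]) e))) (n (n (n (l [614484]) e) (n (l [1105976, 1122472, 1138590]) e)) (n (n (l [876586]) e) (n (l [1187864]) e)))) (n (n (n (n (l [516432]) e) (n (l [1056810]) e)) (n (n (l [811050]) e) e)) (n (n (n (l [679978]) e) (n (l [1138730]) e)) (n (n (l [958488, 974904, 991400, 1007518]) e) (n (l [1204266]) e))))) (n (n (n (n (n (l [450896]) e) (n (l [1089872]) e)) (n (n (l [811092]) e) (n (l [1155114]) e))) (n (n (n (l [614442]) e) (n (l [1138772]) e)) (n (n (l [876586]) e) e))) (n (n (n (n (l [483356]) e) (n (l [1056810]) e)) (n (n (l [909648]) e) (n (l [1187888]) e))) (n (n (n (l [679978]) e) e) (n (n (l [1007700]) e) (n (l [1204266]) e))))))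 (n (n (n (n (n (n (l [319824]) e) (n (l [1007658]) e)) e) (n e (n e (n (l [1187864]) e)))) (n (n (n (n (l [483370]) e) e) (n (n (l [811050]) e) e)) (n (n (n (l [679978]) e) (n (l [1138730]) e)) e))) (n (n (n (n e (n (l [1056810]) e)) (n e (n (l [1155100]) e))) (n (n (n (l [713040]) e) e) (n (n (l [876572]) e) (n (l [1204266]) e)))) (n (n (n (n (l [647504]) e) (n (l [1056796]) e)) (n (n (l [876586]) e) e)) (n (n (n (l [679964]) e) (n (l [1155114]) e)) e)))))
def r10 : Tr (List ℕ) := (n (n (n (n (n (n (n (l [204912, 221352]) e) e) (n (n (l [778352, 794792, 810882]) e) e)) (n (n (n (l [614442]) e) (n (l [1106032, 1122472, 1138478]) e)) e)) (n (n (n (n (l [483244, 549200]) e) e) (n e (n (l [1187808]) e))) (n e (n (n (l [974960, 991400, 1007448]) e) e)))) (n (n (n (n (n (l [385136, 401576, 417750]) e) (n (l [1056607, 1073320, 1089704]) e)) (n (n (l [811050]) e) (n (l [1155093]) e))) (n (n e (n (l [1138730]) e)) (n (n (l [876565]) e) (n (l [1204126]) e)))) (n (n (n (n (l [483321])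 e) (n (l [1056789]) e)) (n (n (l [876376, 942416]) e) (n (l [1187864]) e))) (n (n (n (l [679957]) e) (n (l [1154869, 1171624]) e)) (n (n (l [1007658]) e) (n (l [1204245]) e)))))) (n (n (n (n (n (n (l [286678, 352592]) e) e) e) (n (n (n (l [614358]) e) e) e)) e) (n (n (n (n (n (l [417750]) e) e) (n (n (l [810966]) e) (n (l [1155065]) e))) (n (n (n (l [679810, 745808]) e) (n (l [1138646]) e)) (n (n (l [876537]) e) e))) (n (n (n (n (l [581744, 598184, 614316]) e) (n (l [1056761]) e)) (n e (n (l [1187816]) e))) (n (n (n (l [679929]) e) e) (n (n (l [1007574]) e) e))))))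
def r11 : Tr (List ℕ) := (n (n (n (n (n (n (n (l [270672]) e) (n (l [1040240, 1056915, 1073320, 1090040]) e)) (n (n (l [860496]) e) e)) (n (n (n (l [696656]) e) e) (n (n (l [991568]) e) (n (l [1204518]) e)))) (n (n (n (n (l [565584]) e) (n (l [1122640]) e)) (n (n (l [926032]) e) e)) (n (n (n (l [778576]) e) (n (l [1155219, 1171624]) e)) (n (n (l [1040720]) e) e)))) (n (n (n (n (n (l [467280]) e) e) (n (n (l [893264]) e) (n (l [1188008]) e))) (n (n (n (l [745808]) e) (n (l [1171792]) e)) (n (n (l [1024336]) e) e))) (n (n (n (n (l [647504]) e) (n (l [1106088, 1122472]) e)) (n (n (l [958800]) e) (n (l [1204518]) e))) (n (n (n (l [827728]) e) e) (n (n (l [1073488]) e) e))))) (n (n (n (n (n (n (l [368976]) e) (n (l [1056817, 1073320, 1089704]) e)) (n (n (l [876880]) e) (n (l [1188032]) e))) (n (n (n (l [713040]) e) (n (l [1155408]) e)) (n (n (l [1007952]) e) (n (l [1204420]) e)))) (n (n (n (n (l [598352]) e) (n (l [1139024]) e)) (n (n (l [942416]) e) (n (l [1204560]) e)))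 (n (n (n (l [794960]) e) (n (l [1155121, 1171624]) e)) (n (n (l [1057104]) e) e)))) (n (n (n (n (n (l [516432]) e) (n (l [1106256]) e)) (n (n (l [909648]) e) e)) (n (n (n (l [762192]) e) e) (n (n (l [958488, 974904, 991400, 1007518]) e) e))) (n (n (n (n (l [663888]) e) (n (l [1105976, 1122472, 1138590]) e)) (n (n (l [975184]) e) e)) (n (n (n (l [844112]) e) (n (l [1188176]) e)) (n (n (l [1089872]) e) e))))))
def r12 : Tr (List ℕ) := (n (n (n (n (n (n (n (l [336208]) e) e) (n (n (l [926032]) e) e)) (n (n e (n (l [1155219, 1171624]) e)) e)) (n (n (n (n (l [581968]) e) e) (n e (n (l [1204518]) e))) (n e (n (n (l [1040240, 1056915, 1073320, 1090040]) e) e)))) (n (n (n (n (n (l [532816]) e) (n (l [1106256]) e)) e) e) (n (n (n (n (l [614442]) e) e) (n (n (l [975184]) e) e)) (n (n e (n (l [1188176]) e)) e)))) (n (n (n (n (n (n (l [385360]) e) e) e) (n (n (n (l [679978]) e) e) e)) e) (n (n (n (n (n (l [483370]) e) e) (n (n (l [876586]) e) (n (l [1187864]) e))) (n (n (n (l [778576])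 e) (n (l [1155114]) e)) (n (n (l [1007658]) e) e))) (n (n (n (n (l [729424]) e) (n (l [1138730]) e)) (n e (n (l [1204266]) e))) (n (n (n (l [811050]) e) e) (n (n (l [1056810]) e) e))))))
def r13 : Tr (List ℕ) := (n (n (n (n (n (n (n (l [286692, 352592]) e) e) (n (n (l [876348, 942416]) e) (n (l [1187792]) e))) (n (n (n (l [679894]) e) (n (l [1154813, 1171624]) e)) (n (n (l [1007532]) e) e))) (n (n (n (n (l [598352]) e) (n (l [1138604]) e)) (n e (n (l [1204056]) e))) (n e (n (n (l [1056565, 1073320, 1089704]) e) e)))) (n (n (n (n (n (l [483244, 549200]) e) (n (l [1122640]) e)) (n (n (l [876502]) e) (n (l [1187816]) e))) (n (n (n (l [679894]) e) (n (l [1155030]) e)) (n (n (l [1007574]) e) e))) (n (n (n (n (l [614358]) e) (n (l [1138646]) e)) (n (n (l [991568]) e) (n (l [1204182]) e))) (n (n (n (l [810966]) e) e) (n (n (l [1056726]) e) e))))) (n (n (n (n (n (n (l [401744]) e) (n (l [1056726]) e)) e) (n (n (n (l [679894]) e) e) (n e (n (l [1204182]) e)))) (n (n (n (n (l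 [614316]) e) e) (n (n (l [876502]) e) e)) (n (n (n (l [810924]) e) (n (l [1155030]) e)) e))) (n (n (n (n (n (l [483286]) e) e) (n (n (l [876502]) e) (n (l [1187816]) e))) (n (n (n (l [794960]) e) (n (l [1155030]) e)) (n (n (l [1007574]) e) e))) (n (n (n (n (l [679796, 745808]) e) (n (l [1138646]) e)) (n e (n (l [1204182]) e))) (n (n (n (l [810966]) e) e) (n (n (l [1056726]) e) e))))))
def r14 : Tr (List ℕ) := (n (n (n (n (n (n (n (l [286804, 303272]) e) e) (n (n (l [893096]) e) (n (l [1187816]) e))) (n (n e (n (l [1155016, 1171624]) e)) (n (n (l [1007574]) e) e))) (n (n (n (n (l [631120]) e) (n (l [1138646]) e)) (n e (n (l [1204287]) e))) (n e (n (n (l [1056740, 1073320]) e) e)))) (n (n (n (n (n (l [483384, 499880]) e) (n (l [1106088, 1122472]) e)) e) (n (n (n (l [679915]) e) e) e)) (n (n e (n (n (l [1024336]) e) e)) (n (n e (n (l [1188008]) e)) e)))) (n (n (n (n (n (n (l [434512]) e) (n (l [1056747]) e)) e) (n e (n e (n (l [1204203]) e)))) (n (n (n (n (l [614358]) e)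 e) (n (n (l [876523]) e) e)) (n (n (n (l [810966]) e) (n (l [1155051]) e)) e))) (n (n e (n (n (n (l [827728]) e) e) e)) (n (n (n (n (l [679964, 696488]) e) e) e) e))))
def r15 : Tr (List ℕ) := (n (n (n (n (n (n (n (l [286706, 303216, 319656]) e) (n (l [1056789]) e)) (n (n (l [876446, 893040, 909480]) e) (n (l [1187816]) e))) (n (n e (n (l [1154918, 1171568]) e)) (n (n (l [1007574]) e) (n (l [1204245]) e)))) (n (n (n (n (l [647504]) e) (n (l [1138646]) e)) (n (n (l [876565]) e) (n (l [1204140]) e))) (n (n (n (l [811050]) e) (n (l [1155093]) e)) (n (n (l [1056642, 1073264, 1089704]) e) e)))) (n (n (n (n (n (l [483286, 499824, 516264]) e) (n (l [1105976, 1122472, 1138590]) e)) e) (n (n (n (l [679929]) e) e) e)) (n (n (n (n (l [614386]) e) e) (n (n (l [958488, 974904, 991400, 1007518]) e) e)) e))) (n (n (n (n (n (n (l [450896]) e) (n (l [1056761]) e)) e) (n (n (n (l [679922]) e) e) (n e (n (l [1204217]) e)))) (n (n (n (n (l [614358]) e) e) (n (n (l [876537]) e) e)) (n (n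 (n (l [810966]) e) (n (l [1155065]) e)) e))) (n (n (n (n (n (l [483314]) e) (n (l [1138730]) e)) (n (n (l [876530]) e) (n (l [1187832]) e))) (n (n (n (l [844112]) e) (n (l [1155058]) e)) (n (n (l [1007602]) e) e))) (n (n (n (n (l [679866, 696432, 712872]) e) (n (l [1138674]) e)) (n (n (l [1007658]) e) (n (l [1204210]) e))) (n (n (n (l [810994]) e) (n (l [1187864]) e)) (n (n (l [1056754]) e) e))))))
def r16 : Tr (List ℕ) := (n (n (n (n (n (n (n (l [368808, 401744]) e) (n (l [1106088, 1138310]) e)) (n (n (l [958560, 974680, 991736, 1007910]) e) (n (l [1204266]) e))) (n (n (n (l [778576, 827056]) e) e) (n (n (l [1056929, 1072984, 1089704]) e) e))) (n (n (n (n (l [663888, 712032]) e) (n (l [1155247, 1171288]) e)) (n (n (l [975016, 1007280]) e) e)) (n (n (n (l [876208, 926032]) e) (n (l [1187768]) e)) (n (n (l [1105696, 1122864, 1139080]) e) e)))) (n (n (n (n (n (l [565416, 598576, 646832]) e) e) (n (n (l [975184, 1007532, 1023664]) e) (n (l [1204161]) e))) (n (n (n (l [778464,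 794792, 827056]) e) (n (l [1187864]) e)) (n (n (l [1040240, 1056733, 1090040]) e) e))) (n (n (n (n (l [679978, 696096, 712536, 745808]) e) (n (l [1155023]) e)) (n (n (l [1040720, 1088192]) e) e)) (n (n (n (l [876376, 892760, 926032]) e) e) (n (n (l [1106088, 1122136, 1138520]) e) e))))) (n (n (n (n (n (n (l [467280, 515760]) e) (n (l [1105976, 1138604]) e)) (n (n (l [1007280]) e) (n (l [1204056]) e))) (n (n (n (l [794960, 843440]) e) (n (l [1187648]) e)) (n (n (l [1056600]) e) e))) (n (n (n (n (l [680020, 695984, 745808]) e) (n (l [1154904]) e)) (n (n (l [975072, 991400, 1007574, 1023664]) e) e)) (n (n (n (l [876642, 892592, 942416]) e) (n (l [1187824]) e)) (n (n (l [1138352]) e) e)))) (n (n (n (n (n (l [598352, 646832]) e) (n (l [1154799, 1171624]) e)) (n (n (l [958440, 974792, 991400, 1007714]) e) (n (l [1204266]) e))) (n (n (n (l [860496, 908304]) e) e) (n (n (l [1056859, 1073096]) e) e))) (n (n (n (n (l [762024, 795408, 843104]) e) (n (l [1155163, 1171400]) e)) (n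 (n (l [1040240, 1056537, 1073320, 1090040]) e) e)) (n (n (n (l [876586, 892704, 909144, 942416]) e) (n (l [1204056]) e)) (n (n (l [1105864, 1122472, 1138786]) e) e))))))
def r17 : Tr (List ℕ) := (n (n (n (n (n (n (n (l [418128]) e) e) (n (n (l [1007952]) e) e)) (n (n e (n (l [1188032]) e)) e)) (n (n (n (n (l [680272]) e) e) e) (n e (n (n (l [1139024]) e) e)))) (n (n (n (n (n (l [614736]) e) (n (l [1155408]) e)) e) e) (n (n e (n (n (l [1057104]) e) e)) (n (n e (n (l [1204560]) e)) e)))) (n (n (n (n (n (n (l [483664]) e) e) e) e) e) (n (n e (n (n (n (l [876880]) e) e) e)) (n (n (n (n (l [811344]) e) e) e) e))))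
def r18 : Tr (List ℕ) := (n (n (n (n (n (n (n (l [434512]) e) e) (n (n (l [1007364, 1024336]) e) (n (l [1204182]) e))) (n (n e (n (l [1187768]) e)) (n (n (l [1056726]) e) e))) (n (n (n (n (l [679768, 696656]) e) (n (l [1155030]) e)) e) (n e (n (n (l [1106088, 1122472, 1138352]) e) e)))) (n (n (n (n (n (l [614316, 631120]) e) (n (l [1154652, 1171792]) e)) e) (n (n (n (l [810966]) e) e) e)) (n (n (n (n (l [679894]) e) e) (n (n (l [1056432, 1073488]) e) e)) (n (n e (n (l [1204014]) e)) e)))) (n (n (n (n (n (n (l [483244, 500048]) e) (n (l [1138646]) e)) e) (n (n (n (l [810924]) e) e) e)) (n (n (n (n (l [679894]) e) e) (n (n (l [1007574]) e) e)) (n (n (n (l [876502]) e) (n (l [1187816]) e)) e))) (n (n (n (n (n (l [614316]) e) e) (n (n (l [1007532]) e) (n (l [1204182]) e))) (n (n (n (l [876292, 893264]) e) (n (l [1187792]) e)) (n (n (l [1056726]) e) e))) (n (n (n (n (l [810840, 827728]) e) (n (l [1155030]) e)) e) (n (n (n (l [876502]) e) e) (n (n (l [1138604]) e) e))))))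
def r19 : Tr (List ℕ) := (n (n (n (n (n (n (n (l [450896]) e) (n (l [1138730]) e)) (n (n (l [958488, 974904, 991400, 1007518]) e) (n (l [1204266]) e))) (n (n (n (l [811092]) e) e) (n (n (l [1056810]) e) e))) (n (n (n (n (l [713040]) e) (n (l [1155114]) e)) (n (n (l [1007658]) e) e)) (n (n (n (l [876586]) e) (n (l [1187864]) e)) (n (n (l [1105976, 1122472, 1138590]) e) e)))) (n (n (n (n (n (l [647504]) e) e) (n (n (l [1007700]) e) (n (l [1204266]) e))) (n (n (n (l [811050]) e) (n (l [1187888]) e)) (n (n (l [1056810]) e) e))) (n (n (n (n (l [679964]) e) (n (l [1155114]) e)) (n (n (l [1089872]) e) e)) (n (n (n (l [876586]) e) e) (n (n (l [1138772]) e) e))))) (n (n (n (n (n (n (l [516432]) e) (n (l [1138730]) e)) e) e) (n (n (n (n (l [679978]) e) e) (n (n (l [1007658]) e) e)) (n (n (n (l [876586]) e) (n (l [1187864]) e)) e))) (n (n (n (n e (n (l [1155114]) e)) (n e (n (l [1204252]) e))) (n (n (n (l [909648]) e) e) (n (n (l [1056796]) e) e))) (n (n (n (n (l [844112]) e) (n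 (l [1155100]) e)) (n (n (l [1056810]) e) e)) (n (n (n (l [876572]) e) (n (l [1204266]) e)) e)))))
def r20 : Tr (List ℕ) := (n (n (n (n (n (n (n (l [385192]) e) e) (n (n (l [975016, 1007490]) e) e)) (n (n e (n (l [1187888]) e)) e)) (n (n (n (n (l [679852, 729424]) e) e) e) (n e (n (n (l [1106088, 1138520]) e) e)))) (n (n (n (n (n (l [581800, 614358]) e) (n (l [1155009, 1171624]) e)) e) e) (n (n (n (n (l [679915]) e) e) (n (n (l [1040240, 1056747, 1073320, 1090040]) e) e)) (n (n e (n (l [1204266]) e)) e)))) (n (n (n (n (n (n (l [483286, 532816]) e) e) e) (n (n (n (l [810966]) e) e) e)) e) (n (n (n (n (n (l [614358]) e) e) (n (n (l [1007574]) e) (n (l [1204203]) e))) (n (n (n (l [876418, 926032]) e) (n (l [1187816]) e)) (n (n (l [1056747]) e) e))) (n (n (n (n (l [778408, 810924]) e) (n (l [1155051]) e)) e) (n (n (n (l [876523]) e) e) (n (n (l [1138646]) e) e))))))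
def r21 : Tr (List ℕ) := (n (n (n (n (n (n (n (l [385136, 401576]) e) e) (n (n (l [974960, 991400, 1007490]) e) e)) (n (n (n (l [811050]) e) (n (l [1187832]) e)) e)) (n (n (n (n (l [679852, 745808]) e) e) e) (n e (n (n (l [1106032, 1122472, 1138520]) e) e)))) (n (n (n (n (n (l [581744, 598184, 614358]) e) (n (l [1154911, 1171624]) e)) (n (n (l [1007658]) e) (n (l [1204245]) e))) (n (n e (n (l [1187864]) e)) (n (n (l [1056789]) e) e))) (n (n (n (n (l [679929]) e) (n (l [1155093]) e)) (n (n (l [1056649, 1073320, 1089704]) e) e)) (n (n (n (l [876565]) e) (n (l [1204168]) e)) (n (n (l [1138730]) e) e))))) (n (n (n (n (n (n (l [483286, 549200]) e) e) e) (n (n (n (l [810966]) e) e) e)) e) (n (n (n (n (n (l [614358]) e) e) (n (n (l [1007574]) e) (n (l [1204217]) e))) (n (n (n (l [876418, 942416]) e) (n (l [1187816]) e)) (n (n (l [1056761]) e) e))) (n (n (n (n (l [778352, 794792, 810924]) e) (n (l [1155065]) e)) e) (n (n (n (l [876537]) e) e) (n (n (l [1138646]) e) e))))))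
def r22 : Tr (List ℕ) := (n (n (n (n (n (n (n (l [467280]) e) (n (l [1155219, 1171624]) e)) (n (n (l [1040720]) e) e)) (n (n (n (l [893264]) e) e) (n (n (l [1122640]) e) e))) (n (n (n (n (l [762192]) e) e) (n (n (l [1040240, 1056915, 1073320, 1090040]) e) e)) (n (n (n (l [975184]) e) (n (l [1204518]) e)) e))) (n (n (n (n (n (l [663888]) e) e) (n (n (l [1073488]) e) e)) (n (n (n (l [942416]) e) (n (l [1204518]) e)) (n (n (l [1106088, 1122472]) e) e))) (n (n (n (n (l [844112]) e) (n (l [1188008]) e)) e) (n (n (n (l [1024336]) e) e) (n (n (l [1171792]) e) e))))) (n (n (n (n (n (n (l [565584]) e) (n (l [1155121, 1171624]) e)) (n (n (l [1057104]) e) e)) (n (n (n (l [909648]) e) (n (l [1204560]) e)) (n (n (l [1139024]) e) e))) (n (n (n (n (l [794960]) e) (n (l [1188032]) e)) (n (n (l [1056817, 1073320, 1089704]) e) e)) (n (n (n (l [991568]) e) (n (l [1204420]) e)) (n (n (l [1155408]) e) e)))) (n (n (n (n (n (l [713040]) e) (n (l [1188176]) e)) (n (n (l [1089872]) e) e)) (n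 (n (n (l [958800]) e) e) (n (n (l [1105976, 1122472, 1138590]) e) e))) (n (n (n (n (l [860496]) e) e) (n (n (l [1106256]) e) e)) (n (n (n (l [958488, 974904, 991400, 1007518]) e) e) e)))))
def r23 : Tr (List ℕ) := (n (n (n (n (n (n (n (l [532816]) e) e) (n (n (l [1040240, 1056915, 1073320, 1090040]) e) e)) (n (n e (n (l [1204518]) e)) e)) (n (n (n (n (l [778576]) e) e) e) (n e (n (n (l [1155219, 1171624]) e) e)))) (n (n (n (n (n (l [729424]) e) (n (l [1188176]) e)) e) e) (n (n (n (n (l [811050]) e) e) (n (n (l [1106256]) e) e)) e))) (n (n (n (n (n (n (l [581968]) e) e) e) (n (n (n (l [876586]) e) e) e)) e) (n (n (n (n (n (l [679978]) e) e) (n (n (l [1056810]) e) e)) (n (n (n (l [975184]) e) (n (l [1204266]) e)) (n (n (l [1138730]) e) e))) (n (n (n (n (l [926032]) e) (n (l [1187864]) e)) e) (n (n (n (l [1007658]) e) e) (n (n (l [1155114]) e) e))))))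
def r24 : Tr (List ℕ) := (n (n (n (n (n (n (n (l [483272, 549200]) e) e) (n (n (l [1056593, 1073320, 1089704]) e) e)) (n (n (n (l [876502]) e) (n (l [1204084]) e)) (n (n (l [1138604]) e) e))) (n (n (n (n (l [794960]) e) (n (l [1187792]) e)) e) (n e (n (n (l [1154841, 1171624]) e) e)))) (n (n (n (n (n (l [679824, 745808]) e) e) (n (n (l [1056726]) e) e)) (n (n (n (l [876502]) e) (n (l [1204182]) e)) (n (n (l [1138646]) e) e))) (n (n (n (n (l [810966]) e) (n (l [1187816]) e)) (n (n (l [1122640]) e) e)) (n (n (n (l [1007574]) e) e) (n (n (l [1155030]) e) e))))) (n (n (n (n (n (n (l [598352]) e) (n (l [1155030]) e)) e) (n (n (n (l [876502]) e) e) e)) (n (n (n (n (l [810924]) e) e) (n (n (l [1056726]) e) e)) (n (n (n (l [1007532]) e) (n (l [1204182]) e)) e))) (n (n (n (n (n (l [679894]) e) e) (n (n (l [1056726]) e) e)) (n (n (n (l [991568]) e) (n (l [1204182]) e)) (n (n (l [1138646]) e) e))) (n (n (n (n (l [876376, 942416]) e) (n (l [1187816]) e)) e) (n (n (n (l [1007574])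 e) e) (n (n (l [1155030]) e) e))))))
def r25 : Tr (List ℕ) := (n (n (n (n (n (n (n (l [483496]) e) e) (n (n (l [1056936]) e) e)) (n (n e (n (l [1204392]) e)) e)) (n (n (n (n (l [811344]) e) e) e) (n e (n (n (l [1155240]) e) e)))) (n (n (n (n (n (l [680104]) e) (n (l [1188032]) e)) e) e) (n (n e (n (n (l [1139024]) e) e)) e))) (n (n (n (n (n (n (l [614736]) e) e) e) e) e) (n (n e (n (n (n (l [1007952]) e) e) e)) (n (n (n (n (l [876712]) e) e) e) e))))
def r26 : Tr (List ℕ) := (n (n (n (n (n (n (n (l [483398, 499880]) e) e) (n (n (l [1056754, 1073320]) e) e)) (n (n e (n (l [1204301]) e)) (n (n (l [1138646]) e) e))) (n (n (n (n (l [827728]) e) (n (l [1187816]) e)) e) (n e (n (n (l [1155030, 1171624]) e) e)))) (n (n (n (n (n (l [679978, 696488]) e) (n (l [1188008]) e)) e) (n (n (n (l [876523]) e) e) e)) (n (n e (n (n (l [1106088, 1122472]) e) e)) e))) (n (n (n (n (n (n (l [631120]) e) (n (l [1155051]) e)) e) e) (n (n (n (n (l [810966]) e) e) (n (n (l [1056747]) e) e)) (n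 (n (n (l [1007574]) e) (n (l [1204203]) e)) e))) (n (n e (n (n (n (l [1024336]) e) e) e)) (n (n (n (n (l [876558, 893096]) e) e) e) e))))
def r27 : Tr (List ℕ) := (n (n (n (n (n (n (n (l [483300, 499824, 516264]) e) (n (l [1155093]) e)) (n (n (l [1056656, 1073264, 1089704]) e) e)) (n (n e (n (l [1204154]) e)) (n (n (l [1138646]) e) e))) (n (n (n (n (l [844112]) e) (n (l [1187816]) e)) (n (n (l [1056789]) e) e)) (n (n (n (l [1007658]) e) (n (l [1204245]) e)) (n (n (l [1154932, 1171568]) e) e)))) (n (n (n (n (n (l [679880, 696432, 712872]) e) e) e) (n (n (n (l [876537]) e) e) e)) (n (n (n (n (l [810994]) e) e) (n (n (l [1105976, 1122472, 1138590]) e) e)) e))) (n (n (n (n (n (n (l [647504]) e) (n (l [1155065]) e)) e) (n (n (n (l [876530]) e) e) e)) (n (n (n (n (l [810966]) e) e) (n (n (l [1056761]) e) e)) (n (n (n (l [1007574]) e) (n (l [1204217]) e)) e))) (n (n (n (n (n (l [679922]) e) (n (l [1187864]) e)) (n (n (l [1056754]) e) e)) (n (n (n (l [958488, 974904, 991400,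 1007518]) e) (n (l [1204210]) e)) (n (n (l [1138674]) e) e))) (n (n (n (n (l [876460, 893040, 909480]) e) (n (l [1187832]) e)) (n (n (l [1138730]) e) e)) (n (n (n (l [1007602]) e) e) (n (n (l [1155058]) e) e))))))
def r28 : Tr (List ℕ) := (n (n (n (n (n (n (n (l [565416, 598464]) e) (n (l [1187792]) e)) (n (n (l [1105752, 1122920, 1138982]) e) e)) (n (n (n (l [975184, 1023664]) e) e) (n (n (l [1155261, 1171288]) e) e))) (n (n (n (n (l [860496, 908640]) e) (n (l [1204280]) e)) (n (n (l [1106088, 1138352]) e) e)) (n (n (n (l [1040240, 1056579, 1073320, 1090040]) e) e) e))) (n (n (n (n (n (l [762024, 795296, 843440]) e) e) (n (n (l [1106088, 1122136, 1138604]) e) e)) (n (n (n (l [975072, 991400, 1023664]) e) e) (n (n (l [1155051]) e) e))) (n (n (n (n (l [876600, 892704, 909144, 942416]) e) (n (l [1204189]) e)) e) (n (n (n (l [1040240, 1056761, 1090040]) e) e) (n (n (l [1187912]) e) e))))) (n (n (n (n (n (n (l [663888, 712368]) e) (n (l [1187848]) e)) (n (n (l [1138352])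 e) e)) (n (n (n (l [958440, 974792, 991400, 1007714]) e) e) (n (n (l [1154904]) e) e))) (n (n (n (n (l [876656, 892592, 942416]) e) (n (l [1204056]) e)) (n (n (l [1105976, 1138646]) e) e)) (n (n (n (l [1056943, 1072984, 1089704]) e) e) (n (n (l [1187648]) e) e)))) (n (n (n (n (n (l [794960, 843440]) e) (n (l [1204098]) e)) (n (n (l [1105864, 1122472, 1138786]) e) e)) (n (n (n (l [1040720, 1088528]) e) e) (n (n (l [1155177, 1171400]) e) e))) (n (n (n (n (l [958584, 974736, 991792, 1007812]) e) (n (l [1204280]) e)) (n (n (l [1154841, 1171624]) e) e)) (n (n (n (l [1056873, 1073096]) e) e) e)))))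
def r29 : Tr (List ℕ) := (n (n (n (n (n (n (n (l [614736]) e) e) (n (n (l [1139024]) e) e)) e) (n (n (n (n (l [876880]) e) e) e) (n e (n (n (l [1188032]) e) e)))) (n (n (n (n (n (l [811344]) e) (n (l [1204560]) e)) e) e) (n (n e (n (n (l [1155408]) e) e)) e))) (n (n (n (n (n (n (l [680272]) e) e) e) e) e) (n (n e (n (n (n (l [1057104]) e) e) e)) (n (n (n (n (l [1007952]) e) e) e) e))))
def r30 : Tr (List ℕ) := (n (n (n (n (n (n (n (l [631120]) e) e) (n (n (l [1106088, 1122472, 1138436]) e) e)) (n e (n (n (l [1155030]) e) e))) (n (n (n (n (l [876376, 893264]) e) (n (l [1204182]) e)) e) (n e (n (n (l [1187816]) e) e)))) (n (n (n (n (n (l [810924, 827728]) e) (n (l [1204098]) e)) e) (n (n (n (l [1007574]) e) e) e)) (n (n (n (n (l [876502]) e) e) (n (n (l [1154736, 1171792]) e) e)) e))) (n (n (n (n (n (n (l [679852, 696656]) e) (n (l [1187816]) e)) e) (n (n (n (l [1007532]) e) e) e)) (n (n (n (n (l [876502]) e) e) (n (n (l [1138646]) e) e)) (n (n (n (l [1056726]) e) e) e)))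 (n (n (n (n (n (l [810924]) e) e) (n (n (l [1138604]) e) e)) (n (n (n (l [1056516, 1073488]) e) e) (n (n (l [1155030]) e) e))) (n (n (n (n (l [1007448, 1024336]) e) (n (l [1204182]) e)) e) (n (n (n (l [1056726]) e) e) (n (n (l [1187792]) e) e))))))
def r31 : Tr (List ℕ) := (n (n (n (n (n (n (n (l [647504]) e) (n (l [1187864]) e)) (n (n (l [1105976, 1122472, 1138590]) e) e)) (n (n (n (l [1007700]) e) e) (n (n (l [1155114]) e) e))) (n (n (n (n (l [909648]) e) (n (l [1204266]) e)) (n (n (l [1138730]) e) e)) (n (n (n (l [1056810]) e) e) e))) (n (n (n (n (n (l [844112]) e) e) (n (n (l [1138772]) e) e)) (n (n (n (l [1007658]) e) e) (n (n (l [1155114]) e) e))) (n (n (n (n (l [876572]) e) (n (l [1204266]) e)) e) (n (n (n (l [1056810]) e) e) (n (n (l [1187888]) e) e))))) (n (n (n (n (n (n (l [713040]) e) (n (l [1187864]) e)) e) e) (n (n (n (n (l [876586]) e) e) (n (n (l [1138730]) e) e)) (n (n (n (l [1056810]) e) e) e))) (n (n (n (n e (n (l [1204266]) e)) e) (n (n (n (l [1089872])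 e) e) (n (n (l [1155100]) e) e))) (n (n (n (n (l [958488, 974904, 991400, 1007518]) e) (n (l [1204252]) e)) (n (n (l [1155114]) e) e)) (n (n (n (l [1056796]) e) e) e)))))
def r32 : Tr (List ℕ) := (n (n (n (n (n (n (n (l [581800]) e) e) (n (n (l [1106088, 1138562]) e) e)) e) (n (n (n (n (l [876460, 926032]) e) e) e) (n e (n (n (l [1187912]) e) e)))) (n (n (n (n (n (l [778408, 810966]) e) (n (l [1204308]) e)) e) e) (n (n (n (n (l [876523]) e) e) (n (n (l [1155051, 1171624]) e) e)) e))) (n (n (n (n (n (n (l [679894, 729424]) e) e) e) (n (n (n (l [1007574]) e) e) e)) e) (n (n (n (n (n (l [810966]) e) e) (n (n (l [1138646]) e) e)) (n (n (n (l [1040240, 1056789, 1073320, 1090040]) e) e) (n (n (l [1155051]) e) e))) (n (n (n (n (l [975016, 1007532]) e) (n (l [1204203]) e)) e) (n (n (n (l [1056747]) e) e) (n (n (l [1187816]) e) e))))))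
def r33 : Tr (List ℕ) := (n (n (n (n (n (n (n (l [581744, 598184]) e) e) (n (n (l [1106032, 1122472, 1138562]) e) e)) (n (n (n (l [1007658]) e) e) e)) (n (n (n (n (l [876460, 942416]) e) e) e) (n e (n (n (l [1187856]) e) e)))) (n (n (n (n (n (l [778352, 794792, 810966]) e) (n (l [1204210]) e)) (n (n (l [1138730]) e) e)) (n e (n (n (l [1155093]) e) e))) (n (n (n (n (l [876537]) e) (n (l [1204245]) e)) (n (n (l [1154953, 1171624]) e) e)) (n (n (n (l [1056789]) e) e) (n (n (l [1187864]) e) e))))) (n (n (n (n (n (n (l [679894, 745808]) e) e) e) (n (n (n (l [1007574]) e) e) e)) e) (n (n (n (n (n (l [810966]) e) e) (n (n (l [1138646]) e) e)) (n (n (n (l [1056691, 1073320, 1089704]) e) e) (n (n (l [1155065]) e) e))) (n (n (n (n (l [974960, 991400, 1007532]) e) (n (l [1204217]) e)) e) (n (n (n (l [1056761]) e) e) (n (n (l [1187816]) e) e))))))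
def r34 : Tr (List ℕ) := (n (n (n (n (n (n (n (l [663888]) e) (n (l [1204518]) e)) e) (n (n (n (l [1073488]) e) e) e)) (n (n (n (n (l [958800]) e) e) (n (n (l [1155219, 1171624]) e) e)) (n (n (n (l [1106256]) e) e) e))) (n (n (n (n (n (l [860496]) e) e) (n (n (l [1171792]) e) e)) (n (n (n (l [1056817, 1073320, 1089704]) e) e) (n (n (l [1188008]) e) e))) (n (n (n (n (l [958488, 974904, 991400, 1007518]) e) e) e) (n (n (n (l [1106088, 1122472]) e) e) (n (n (l [1204518]) e) e))))) (n (n (n (n (n (n (l [762192]) e) (n (l [1204420]) e)) (n (n (l [1155408]) e) e)) (n (n (n (l [1089872]) e) e) (n (n (l [1188032]) e) e))) (n (n (n (n (l [991568]) e) e) (n (n (l [1155121, 1171624]) e) e)) (n (n (n (l [1122640]) e) e) (n (n (l [1204560]) e) e)))) (n (n (n (n (n (l [909648]) e) e) e) e) (n (n (n (n (l [1040720]) e) e) (n (n (l [1188176]) e) e)) (n (n (n (l [1105976, 1122472, 1138590]) e) e) e)))))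
def r35 : Tr (List ℕ) := (n (n (n (n (n (n (n (l [729424]) e) e) (n (n (l [1155219, 1171624]) e) e)) e) (n (n (n (n (l [975184]) e) e) e) (n e (n (n (l [1204518]) e) e)))) (n (n (n (n (n (l [926032]) e) e) e) e) (n (n (n (n (l [1007658]) e) e) (n (n (l [1188176]) e) e)) e))) (n (n (n (n (n (n (l [778576]) e) e) e) (n (n (n (l [1056810]) e) e) e)) e) (n (n (n (n (n (l [876586]) e) e) (n (n (l [1155114]) e) e)) (n (n (n (l [1106256]) e) e) (n (n (l [1187864]) e) e))) (n (n (n (n (l [1040240, 1056915, 1073320, 1090040]) e) e) e) (n (n (n (l [1138730]) e) e) (n (n (l [1204266]) e) e))))))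
def r36 : Tr (List ℕ) := (n (n (n (n (n (n (n (l [679852, 745808]) e) e) (n (n (l [1154869, 1171624]) e) e)) (n (n (n (l [1056726]) e) e) (n (n (l [1187792]) e) e))) (n (n (n (n (l [991568]) e) e) e) (n e (n (n (l [1204112]) e) e)))) (n (n (n (n (n (l [876404, 942416]) e) e) (n (n (l [1155030]) e) e)) (n (n (n (l [1056726]) e) e) (n (n (l [1187816]) e) e))) (n (n (n (n (l [1007574]) e) e) e) (n (n (n (l [1138646]) e) e) (n (n (l [1204182]) e) e))))) (n (n (n (n (n (n (l [794960]) e) (n (l [1204182]) e)) e) (n (n (n (l [1056726]) e) e) e)) (n (n (n (n (l [1007532]) e) e) (n (n (l [1155030]) e) e)) (n (n (n (l [1138604]) e) e) e))) (n (n (n (n (n (l [876502]) e) e) (n (n (l [1155030]) e) e)) (n (n (n (l [1122640]) e) e) (n (n (l [1187816]) e) e))) (n (n (n (n (l [1056621, 1073320, 1089704]) e) e) e) (n (n (n (l [1138646]) e) e) (n (n (l [1204182]) e) e))))))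
def r37 : Tr (List ℕ) := (n (n (n (n (n (n (n (l [680104]) e) e) (n (n (l [1155240]) e) e)) e) (n (n (n (n (l [1007952]) e) e) e) (n e (n (n (l [1204392]) e) e)))) (n (n (n (n (n (l [876712]) e) e) e) e) (n (n e (n (n (l [1188032]) e) e)) e))) (n (n (n (n (n (n (l [811344]) e) e) e) e) e) (n (n e (n (n (n (l [1139024]) e) e) e)) (n (n (n (n (l [1056936]) e) e) e) e))))
def r38 : Tr (List ℕ) := (n (n (n (n (n (n (n (l [679992, 696488]) e) e) (n (n (l [1155044, 1171624]) e) e)) (n e (n (n (l [1187816]) e) e))) (n (n (n (n (l [1024336]) e) e) e) (n e (n (n (l [1204315]) e) e)))) (n (n (n (n (n (l [876572, 893096]) e) e) e) (n (n (n (l [1056747]) e) e) e)) (n (n e (n (n (l [1188008]) e) e)) e))) (n (n (n (n (n (n (l [827728]) e) (n (l [1204203]) e)) e) e) (n (n (n (n (l [1007574]) e) e) (n (n (l [1155051]) e) e)) (n (n (n (l [1138646]) e) e) e))) (n (n e (n (n (n (l [1106088, 1122472]) e) e) e)) (n (n (n (n (l [1073320]) e) e) e) e))))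
def r39 : Tr (List ℕ) := (n (n (n (n (n (n (n (l [679894, 696432, 712872]) e) (n (l [1204245]) e)) (n (n (l [1154946, 1171568]) e) e)) (n e (n (n (l [1187816]) e) e))) (n (n (n (n (l [958488, 974904, 991400, 1007518]) e) e) (n (n (l [1155093]) e) e)) (n (n (n (l [1138730]) e) e) (n (n (l [1204168]) e) e)))) (n (n (n (n (n (l [876474, 893040, 909480]) e) e) e) (n (n (n (l [1056761]) e) e) e)) (n (n (n (n (l [1007602]) e) e) e) e))) (n (n (n (n (n (n (l [844112]) e) (n (l [1204217]) e)) e) (n (n (n (l [1056754]) e) e) e)) (n (n (n (n (l [1007574]) e) e) (n (n (l [1155065]) e) e)) (n (n (n (l [1138646]) e) e) e))) (n (n (n (n (n (l [876530]) e) e) (n (n (l [1155058]) e) e)) (n (n (n (l [1105976, 1122472, 1138590]) e) e) (n (n (l [1187832]) e) e))) (n (n (n (n (l [1056670, 1073264, 1089704]) e) e) (n (n (l [1187864]) e) e)) (n (n (n (l [1138674]) e) e) (n (n (l [1204210]) e) e))))))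
def r40 : Tr (List ℕ) := (n (n (n (n (n (n (n (l [762024, 795184]) e) e) e) (n (n (n (l [1106088, 1122136]) e) e) (n (n (l [1204294]) e) e))) (n (n (n (n (l [1040720, 1088864]) e) e) (n (n (l [1187816]) e) e)) (n (n (n (l [1154883, 1171624]) e) e) e))) (n (n (n (n (n (l [958608, 974792, 991848, 1007714]) e) e) (n (n (l [1187960]) e) e)) (n (n (n (l [1105976]) e) e) (n (n (l [1204217]) e) e))) (n (n (n (n (l [1056887, 1073096]) e) e) e) (n (n (n (l [1155079]) e) e) e)))) (n (n (n (n (n (n (l [860496, 908976]) e) e) (n (n (l [1187648]) e) e)) (n (n (n (l [1105864, 1122472, 1138786]) e) e) (n (n (l [1204056]) e) e))) (n (n (n (n (l [1056957, 1072984, 1089704]) e) e) (n (n (l [1187872]) e) e)) (n (n (n (l [1155275, 1171288]) e) e) e))) (n (n (n (n (n (l [958440, 974792, 991400, 1007714]) e) e) e) (n e (n (n (l [1204294]) e) e))) (n (n (n (n (l [1105808, 1122976, 1138884]) e) e) (n (n (l [1204140]) e) e)) (n (n (n (l [1155191, 1171400]) e) e) e)))))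
def r41 : Tr (List ℕ) := (n (n (n (n (n (n (n (l [811344]) e) e) (n (n (l [1188032]) e) e)) e) (n (n (n (n (l [1057104]) e) e) e) e)) (n (n (n (n (n (l [1007952]) e) e) e) e) (n (n e (n (n (l [1204560]) e) e)) e))) (n (n (n (n (n (n (l [876880]) e) e) e) e) e) (n (n e (n (n (n (l [1155408]) e) e) e)) (n (n (n (n (l [1139024]) e) e) e) e))))
def r42 : Tr (List ℕ) := (n (n (n (n (n (n (n (l [827728]) e) e) (n (n (l [1187864]) e) e)) (n e (n (n (l [1204182]) e) e))) (n (n (n (n (l [1056600, 1073488]) e) e) e) e)) (n (n (n (n (n (l [1007532, 1024336]) e) e) e) (n (n (n (l [1138646]) e) e) e)) (n (n (n (n (l [1056726]) e) e) (n (n (l [1204182]) e) e)) e))) (n (n (n (n (n (n (l [876460, 893264]) e) e) e) (n (n (n (l [1138604]) e) e) e)) (n (n (n (n (l [1056726]) e) e) (n (n (l [1187816]) e) e)) (n (n (n (l [1155030]) e) e) e))) (n (n (n (n (n (l [1007532]) e) e) (n (n (l [1187792]) e) e)) (n (n (n (l [1154820, 1171792]) e) e) (n (n (l [1204182]) e) e))) (n (n (n (n (l [1106088,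 1122472, 1138520]) e) e) e) (n (n (n (l [1155030]) e) e) e)))))
def r43 : Tr (List ℕ) := (n (n (n (n (n (n (n (l [844112]) e) e) e) (n (n (n (l [1138772]) e) e) (n (n (l [1204266]) e) e))) (n (n (n (n (l [1089872]) e) e) (n (n (l [1187864]) e) e)) (n (n (n (l [1155114]) e) e) e))) (n (n (n (n (n (l [958488, 974904, 991400, 1007518]) e) e) (n (n (l [1187888]) e) e)) (n (n (n (l [1138730]) e) e) (n (n (l [1204266]) e) e))) (n (n (n (n (l [1056796]) e) e) e) (n (n (n (l [1155114]) e) e) e)))) (n (n (n (n (n (n (l [909648]) e) e) e) e) (n (n (n (n (l [1056810]) e) e) (n (n (l [1187864]) e) e)) (n (n (n (l [1155114]) e) e) e))) (n (n e (n e (n (n (l [1204252]) e) e))) (n (n (n (n (l [1105976, 1122472, 1138590]) e) e) (n (n (l [1204266]) e) e)) (n (n (n (l [1155100]) e) e) e)))))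
def r44 : Tr (List ℕ) := (n (n (n (n (n (n (n (l [778408]) e) e) (n (n (l [1187936]) e) e)) e) (n (n (n (n (l [1040240, 1056831, 1073320, 1090040]) e) e) e) e)) (n (n (n (n (n (l [975016, 1007574]) e) e) e) e) (n (n (n (n (l [1056747]) e) e) (n (n (l [1204350]) e) e)) e))) (n (n (n (n (n (n (l [876502, 926032]) e) e) e) (n (n (n (l [1138646]) e) e) e)) e) (n (n (n (n (n (l [1007574]) e) e) (n (n (l [1187816]) e) e)) (n (n (n (l [1155093, 1171624]) e) e) (n (n (l [1204203]) e) e))) (n (n (n (n (l [1106088, 1138604]) e) e) e) (n (n (n (l [1155051]) e) e) e)))))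
def r45 : Tr (List ℕ) := (n (n (n (n (n (n (n (l [778352, 794792]) e) e) (n (n (l [1187880]) e) e)) (n (n (n (l [1138730]) e) e) e)) (n (n (n (n (l [1056733, 1073320, 1089704]) e) e) e) e)) (n (n (n (n (n (l [974960, 991400, 1007574]) e) e) (n (n (l [1187864]) e) e)) (n e (n (n (l [1204245]) e) e))) (n (n (n (n (l [1056761]) e) e) (n (n (l [1204252]) e) e)) (n (n (n (l [1155093]) e) e) e)))) (n (n (n (n (n (n (l [876502, 942416]) e) e) e) (n (n (n (l [1138646]) e) e) e)) e) (n (n (n (n (n (l [1007574]) e) e) (n (n (l [1187816]) e) e)) (n (n (n (l [1154995, 1171624]) e) e) (n (n (l [1204217]) e) e))) (n (n (n (n (l [1106032, 1122472, 1138604]) e) e) e) (n (n (n (l [1155065]) e) e) e)))))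
def r46 : Tr (List ℕ) := (n (n (n (n (n (n (n (l [860496]) e) e) e) (n (n (n (l [1171792]) e) e) e)) (n (n e (n (n (l [1204518]) e) e)) (n (n (n (l [1188176]) e) e) e))) (n (n (n (n (n (l [1040720]) e) e) (n (n (l [1204518]) e) e)) (n (n (n (l [1155121, 1171624]) e) e) e)) (n (n (n (n (l [1105976, 1122472, 1138590]) e) e) e) (n (n (n (l [1188008]) e) e) e)))) (n (n (n (n (n (n (l [958800]) e) e) (n (n (l [1204560]) e) e)) e) (n (n (n (n (l [1122640]) e) e) (n (n (l [1204420]) e) e)) e)) (n (n (n (n (n (l [1089872]) e) e) e) e) e)))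
def r47 : Tr (List ℕ) := (n (n (n (n (n (n (n (l [926032]) e) e) (n (n (l [1204518]) e) e)) e) (n (n (n (n (l [1106256]) e) e) e) e)) (n (n (n (n (n (l [1040240, 1056915, 1073320, 1090040]) e) e) e) e) (n (n (n (n (l [1138730]) e) e) e) e))) (n (n (n (n (n (n (l [975184]) e) e) e) (n (n (n (l [1155114]) e) e) e)) e) (n (n (n (n (n (l [1056810]) e) e) (n (n (l [1204266]) e) e)) (n (n (n (l [1188176]) e) e) e)) (n (n (n (n (l [1155219, 1171624]) e) e) e) (n (n (n (l [1187864]) e) e) e)))))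
def r48 : Tr (List ℕ) := (n (n (n (n (n (n (n (l [876432, 942416]) e) e) (n (n (l [1204140]) e) e)) (n (n (n (l [1155030]) e) e) e)) (n (n (n (n (l [1122640]) e) e) e) e)) (n (n (n (n (n (l [1056649, 1073320, 1089704]) e) e) (n (n (l [1204182]) e) e)) (n (n (n (l [1155030]) e) e) e)) (n (n (n (n (l [1138646]) e) e) e) (n (n (n (l [1187816]) e) e) e)))) (n (n (n (n (n (n (l [991568]) e) e) e) (n (n (n (l [1155030]) e) e) e)) (n (n (n (n (l [1138604]) e) e) (n (n (l [1204182]) e) e)) (n (n (n (l [1187792]) e) e) e))) (n (n (n (n (n (l [1056726]) e) e) (n (n (l [1204182]) e) e)) e) (n (n (n (n (l [1154897, 1171624]) e) e) e) (n (n (n (l [1187816]) e) e) e)))))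
def r49 : Tr (List ℕ) := (n (n (n (n (n (n (n (l [876712]) e) e) (n (n (l [1204392]) e) e)) e) (n (n (n (n (l [1139024]) e) e) e) e)) (n (n (n (n (n (l [1056936]) e) e) e) e) e)) (n (n (n (n (n (n (l [1007952]) e) e) e) e) e) (n (n e (n (n (n (l [1188032]) e) e) e)) (n (n (n (n (l [1155240]) e) e) e) e))))
def r50 : Tr (List ℕ) := (n (n (n (n (n (n (n (l [876586, 893096]) e) e) (n (n (l [1204329]) e) e)) e) (n (n (n (n (l [1106088, 1122472]) e) e) e) e)) (n (n (n (n (n (l [1056782, 1073320]) e) e) e) (n (n (n (l [1155051]) e) e) e)) e)) (n (n (n (n (n (n (l [1024336]) e) e) e) e) (n (n (n (n (l [1138646]) e) e) (n (n (l [1204203]) e) e)) (n (n (n (l [1187816]) e) e) e))) (n (n e (n (n (n (l [1188008]) e) e) e)) (n (n (n (n (l [1155058, 1171624]) e) e) e) e))))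
def r51 : Tr (List ℕ) := (n (n (n (n (n (n (n (l [876488, 893040, 909480]) e) e) (n (n (l [1204182]) e) e)) e) (n (n (n (n (l [1105976, 1122472, 1138590]) e) e) (n (n (l [1204245]) e) e)) (n (n (n (l [1187864]) e) e) e))) (n (n (n (n (n (l [1056684, 1073264, 1089704]) e) e) e) (n (n (n (l [1155065]) e) e) e)) (n (n (n (n (l [1138674]) e) e) e) e))) (n (n (n (n (n (n (l [958488, 974904, 991400, 1007518]) e) e) e) (n (n (n (l [1155058]) e) e) e)) (n (n (n (n (l [1138646]) e) e) (n (n (l [1204217]) e) e)) (n (n (n (l [1187816]) e) e) e))) (n (n (n (n (n (l [1056754]) e) e) (n (n (l [1204210]) e) e)) e) (n (n (n (n (l [1154960, 1171568]) e) e) e) (n (n (n (l [1187832]) e) e) e)))))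
def r52 : Tr (List ℕ) := (n (n (n (n (n (n (n (l [958632, 991904]) e) e) e) (n (n (n (l [1188008]) e) e) e)) (n e (n (n (n (l [1204182]) e) e) e))) (n (n (n (n (n (l [1105864, 1123032, 1138786]) e) e) e) (n (n (n (l [1187896]) e) e) e)) (n (n (n (n (l [1155205, 1171400]) e) e) e) (n (n (n (l [1204245]) e) e) e)))) (n (n (n (n (n (n (l [1040720, 1089200]) e) e) e) e) (n (n (n (n (l [1155289, 1171288]) e) e) e) (n (n (n (l [1204308]) e) e) e))) (n (n (n (n (n (l [1105864, 1122472, 1138786]) e) e) e) e) (n e (n (n (n (l [1204308]) e) e) e)))))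
def r53 : Tr (List ℕ) := (n (n (n (n (n (n (n (l [1007952]) e) e) e) e) (n (n (n (n (l [1155408]) e) e) e) e)) (n (n (n (n (n (l [1139024]) e) e) e) e) e)) (n (n (n (n (n (n (l [1057104]) e) e) e) e) e) (n (n e (n (n (n (l [1204560]) e) e) e)) (n (n (n (n (l [1188032]) e) e) e) e))))
def r54 : Tr (List ℕ) := (n (n (n (n (n (n (n (l [1024336]) e) e) e) e) (n (n (n (n (l [1154904, 1171792]) e) e) e) e)) (n (n (n (n (n (l [1106088, 1122472, 1138604]) e) e) e) (n (n (n (l [1187816]) e) e) e)) (n (n (n (n (l [1155030]) e) e) e) e))) (n (n (n (n (n (n (l [1056684, 1073488]) e) e) e) (n (n (n (l [1187792]) e) e) e)) (n (n (n (n (l [1155030]) e) e) e) (n (n (n (l [1204182]) e) e) e))) (n (n (n (n (n (l [1138604]) e) e) e) (n (n (n (l [1204266]) e) e) e)) (n (n (n (n (l [1187912]) e) e) e) (n (n (n (l [1204182]) e) e) e)))))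
def r55 : Tr (List ℕ) := (n (n (n (n (n (n (n (l [958488, 974904, 991400, 1007518]) e) e) e) (n (n (n (l [1187888]) e) e) e)) (n e (n (n (n (l [1204266]) e) e) e))) (n (n (n (n (n (l [1105976, 1122472, 1138590]) e) e) e) (n (n (n (l [1187864]) e) e) e)) (n (n (n (n (l [1155100]) e) e) e) (n (n (n (l [1204266]) e) e) e)))) (n (n (n (n (n (n (l [1089872]) e) e) e) e) (n (n (n (n (l [1155114]) e) e) e) (n (n (n (l [1204266]) e) e) e))) (n e (n e (n (n (n (l [1204252]) e) e) e)))))
def r56 : Tr (List ℕ) := (n (n (n (n (n (n (n (l [975016]) e) e) e) e) (n (n (n (n (l [1155135, 1171624]) e) e) e) e)) (n (n (n (n (n (l [1106088, 1138646]) e) e) e) e) (n (n (n (n (l [1155051]) e) e) e) e))) (n (n (n (n (n (n (l [1040240, 1056873, 1073320, 1090040]) e) e) e) (n (n (n (l [1187816]) e) e) e)) e) (n (n (n (n (n (l [1138646]) e) e) e) (n (n (n (l [1204392]) e) e) e)) (n (n (n (n (l [1187960]) e) e) e) (n (n (n (l [1204203]) e) e) e)))))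
def r57 : Tr (List ℕ) := (n (n (n (n (n (n (n (l [974960, 991400]) e) e) e) (n (n (n (l [1187864]) e) e) e)) (n (n (n (n (l [1155037, 1171624]) e) e) e) e)) (n (n (n (n (n (l [1106032, 1122472, 1138646]) e) e) e) e) (n (n (n (n (l [1155065]) e) e) e) (n (n (n (l [1204245]) e) e) e)))) (n (n (n (n (n (n (l [1056775, 1073320, 1089704]) e) e) e) (n (n (n (l [1187816]) e) e) e)) e) (n (n (n (n (n (l [1138646]) e) e) e) (n (n (n (l [1204294]) e) e) e)) (n (n (n (n (l [1187904]) e) e) e) (n (n (n (l [1204217]) e) e) e)))))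
def r58 : Tr (List ℕ) := (n (n (n (n (n (n (n (l [1040720]) e) e) e) (n (n (n (l [1204518]) e) e) e)) e) (n (n e (n (n (n (l [1204420]) e) e) e)) e)) e)
def r59 : Tr (List ℕ) := (n (n (n (n (n (n (n (l [1040240, 1056915, 1073320, 1090040]) e) e) e) e) (n (n (n (n (l [1188176]) e) e) e) e)) (n (n (n (n (n (l [1155219, 1171624]) e) e) e) e) (n (n (n (n (l [1187864]) e) e) e) e))) (n (n (n (n (n (n (l [1106256]) e) e) e) (n (n (n (l [1204266]) e) e) e)) e) (n (n (n (n (n (l [1155114]) e) e) e) e) (n (n (n (n (l [1204518]) e) e) e) e))))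
def r60 : Tr (List ℕ) := (n (n (n (n (n (n (n (l [1056677, 1073320, 1089704]) e) e) e) (n (n (n (l [1204182]) e) e) e)) e) (n (n (n (n (n (l [1154925, 1171624]) e) e) e) (n (n (n (l [1204182]) e) e) e)) (n (n (n (n (l [1187816]) e) e) e) e))) (n (n (n (n (n (n (l [1122640]) e) e) e) (n (n (n (l [1204182]) e) e) e)) (n (n (n (n (l [1187792]) e) e) e) e)) (n (n (n (n (n (l [1155030]) e) e) e) e) (n (n (n (n (l [1204168]) e) e) e) e))))
def r61 : Tr (List ℕ) := (n (n (n (n (n (n (n (l [1056936]) e) e) e) e) (n (n (n (n (l [1188032]) e) e) e) e)) (n (n (n (n (n (l [1155240]) e) e) e) e) e)) (n (n (n (n (n (n (l [1139024]) e) e) e) e) e) (n e (n (n (n (n (l [1204392]) e) e) e) e))))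
def r62 : Tr (List ℕ) := (n (n (n (n (n (n (n (l [1056796, 1073320]) e) e) e) e) (n (n (n (n (l [1188008]) e) e) e) e)) (n (n (n (n (n (l [1171624]) e) e) e) (n (n (n (l [1204203]) e) e) e)) e)) (n (n (n (n (n (n (l [1106088, 1122472]) e) e) e) e) (n (n (n (n (l [1187816]) e) e) e) e)) (n e (n (n (n (n (l [1204343]) e) e) e) e))))
def r63 : Tr (List ℕ) := (n (n (n (n (n (n (n (l [1123088]) e) e) e) e) e) (n e (n (n (n (n (l [1204322]) e) e) e) e))) (n (n e (n (n (n (n (l [1204322]) e) e) e) e)) e))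
def r64 : Tr (List ℕ) := (n (n (n (n (n (n (n (l [1139024]) e) e) e) e) (n (n (n (n (l [1204560]) e) e) e) e)) (n (n (n (n (n (l [1188032]) e) e) e) e) e)) (n (n (n (n (n (n (l [1155408]) e) e) e) e) e) e))
def r65 : Tr (List ℕ) := (n (n (n (n (n (n (n (l [1106088, 1122472]) e) e) e) e) (n (n (n (n (l [1204350]) e) e) e) e)) (n (n (n (n (n (l [1187960]) e) e) e) e) (n (n (n (n (l [1204182]) e) e) e) e))) (n (n (n (n (n (n (l [1154988, 1171792]) e) e) e) e) (n (n (n (n (l [1204182]) e) e) e) e)) (n (n (n (n (n (l [1187792]) e) e) e) e) e)))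
def r66 : Tr (List ℕ) := (n (n (n (n (n (n (n (l [1105976, 1122472, 1138590]) e) e) e) e) e) (n e (n (n (n (n (l [1204252]) e) e) e) e))) (n (n e (n (n (n (n (l [1204266]) e) e) e) e)) e))
def r67 : Tr (List ℕ) := (n (n (n (n (n (n (n (l [1155219, 1171624]) e) e) e) e) e) (n (n (n (n (n (l [1204518]) e) e) e) e) e)) (n (n (n (n (n (n (l [1188176]) e) e) e) e) e) (n (n (n (n (n (l [1204266]) e) e) e) e) e)))
def r68 : Tr (List ℕ) := (n (n (n (n (n (n (n (l [1154953, 1171624]) e) e) e) e) e) (n (n (n (n (n (l [1204196]) e) e) e) e) e)) (n e (n (n (n (n (n (l [1204182]) e) e) e) e) e)))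
def r69 : Tr (List ℕ) := (n (n (n (n (n (n (n (l [1155240]) e) e) e) e) e) (n (n (n (n (n (l [1204392]) e) e) e) e) e)) (n (n (n (n (n (n (l [1188032]) e) e) e) e) e) e))
def r70 : Tr (List ℕ) := (n (n (n (n (n (n (n (l [1188032]) e) e) e) e) e) e) (n (n (n (n (n (n (l [1204560]) e) e) e) e) e) e))
def r71 : Tr (List ℕ) := (n (n (n (n (n (n (n (l [1188008]) e) e) e) e) e) e) (n (n (n (n (n (n (l [1204434]) e) e) e) e) e) e))
def r72 : Tr (List ℕ) := (n (n (n (n (n (n (n (l [1204518]) e) e) e) e) e) e) e)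
def r73 : Tr (List ℕ) := e

def tblT : Tr (Tr (List ℕ)) := (n (n (n (n (n (n (n (l r0) (l r64)) (n (l r32) (l e))) (n (n (l r16) (l e)) (n (l r48) (l e)))) (n (n (n (l r8) (l r72)) (n (l r40) (l e))) (n (n (l r24) (l e)) (n (l r56) (l e))))) (n (n (n (n (l r4) (l r68)) (n (l r36) (l e))) (n (n (l r20) (l e)) (n (l r52) (l e)))) (n (n (n (l r12) (l e)) (n (l r44) (l e))) (n (n (l r28) (l e)) (n (l r60) (l e)))))) (n (n (n (n (n (l r2) (l r66)) (n (l r34) (l e))) (n (n (l r18) (l e)) (n (l r50) (l e)))) (n (n (n (l r10) (l e)) (n (l r42) (l e))) (n (n (l r26) (l e)) (n (l r58) (l e))))) (n (n (n (n (l r6) (l r70)) (n (l r38) (l e))) (n (n (l r22) (l e)) (n (l r54) (l e)))) (n (n (n (l r14) (l e)) (n (l r46) (l e))) (n (n (l r30) (l e)) (n (l r62) (l e))))))) (n (n (n (n (n (n (l r1) (l r65)) (n (l r33) (l e))) (n (n (l r17) (l e)) (n (l r49) (l e)))) (n (n (n (l r9) (l r73)) (n (l r41) (l e))) (n (n (l r25) (l e)) (n (l r57) (l e))))) (n (n (n (n (l r5) (l r69)) (n (l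 r37) (l e))) (n (n (l r21) (l e)) (n (l r53) (l e)))) (n (n (n (l r13) (l e)) (n (l r45) (l e))) (n (n (l r29) (l e)) (n (l r61) (l e)))))) (n (n (n (n (n (l r3) (l r67)) (n (l r35) (l e))) (n (n (l r19) (l e)) (n (l r51) (l e)))) (n (n (n (l r11) (l e)) (n (l r43) (l e))) (n (n (l r27) (l e)) (n (l r59) (l e))))) (n (n (n (n (l r7) (l r71)) (n (l r39) (l e))) (n (n (l r23) (l e)) (n (l r55) (l e)))) (n (n (n (l r15) (l e)) (n (l r47) (l e))) (n (n (l r31) (l e)) (n (l r63) (l e))))))))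

def degT : Tr ℕ := (n (n (n (n (n (n (n (l 1) (l 15)) (n (l 9) (l 0))) (n (n (l 7) (l 0)) (n (l 12) (l 0)))) (n (n (n (l 5) (l 18)) (n (l 11) (l 0))) (n (n (l 8) (l 0)) (n (l 13) (l 0))))) (n (n (n (n (l 4) (l 16)) (n (l 10) (l 0))) (n (n (l 7) (l 0)) (n (l 13) (l 0)))) (n (n (n (l 6) (l 0)) (n (l 11) (l 0))) (n (n (l 9) (l 0)) (n (l 14) (l 0)))))) (n (n (n (n (n (l 3) (l 15)) (n (l 10) (l 0))) (n (n (l 7) (l 0)) (n (l 12) (l 0)))) (n (n (n (l 5) (l 0)) (n (l 11) (l 0))) (n (n (l 8) (l 0)) (n (l 14) (l 0))))) (n (n (n (n (l 4) (l 17)) (n (l 10) (l 0))) (n (n (l 8) (l 0)) (n (l 13) (l 0)))) (n (n (n (l 6) (l 0)) (n (l 12) (l 0))) (n (n (l 9) (l 0)) (n (l 14) (l 0))))))) (n (n (n (n (n (n (l 2) (l 15)) (n (l 9) (l 0))) (n (n (l 7) (l 0)) (n (l 12) (l 0)))) (n (n (n (l 5) (l 19)) (n (l 11) (l 0))) (n (n (l 8) (l 0)) (n (l 13) (l 0))))) (n (n (n (n (l 4) (l 16)) (n (l 10) (l 0))) (n (n (l 7) (l 0)) (n (l 13) (l 0)))) (n (n (n (l 6) (l 0)) (n (l 11) (l 0))) (n (n (l 9) (l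 0)) (n (l 14) (l 0)))))) (n (n (n (n (n (l 3) (l 16)) (n (l 10) (l 0))) (n (n (l 7) (l 0)) (n (l 12) (l 0)))) (n (n (n (l 6) (l 0)) (n (l 11) (l 0))) (n (n (l 8) (l 0)) (n (l 14) (l 0))))) (n (n (n (n (l 5) (l 17)) (n (l 10) (l 0))) (n (n (l 8) (l 0)) (n (l 13) (l 0)))) (n (n (n (l 6) (l 0)) (n (l 12) (l 0))) (n (n (l 9) (l 0)) (n (l 15) (l 0))))))))

def idxs : List (ℕ × ℕ) := [(0, 1), (1, 2), (2, 3), (3, 3), (4, 4), (5, 4), (6, 4), (7, 5), (8, 5), (9, 5), (10, 5), (11, 6), (12, 6), (13, 6), (14, 6), (15, 6), (16, 7), (17, 7), (18, 7), (19, 7), (20, 7), (21, 7), (22, 8), (23, 8), (24, 8), (25, 8), (26, 8), (27, 8), (28, 9), (29, 9), (30, 9), (31, 9), (32, 9), (33, 9), (34, 10), (35, 10), (36, 10), (37, 10), (38, 10), (39, 10), (40, 11), (41, 11), (42, 11), (43, 11), (44, 11), (45, 11), (46, 12), (47, 12), (48, 12), (49, 12), (50, 12), (51, 12), (52, 13), (53, 13), (54, 13), (55, 13), (56, 13), (57, 13), (58, 14), (59, 14), (60, 14), (61, 14), (62, 14), (63, 15), (64,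 15), (65, 15), (66, 15), (67, 16), (68, 16), (69, 16), (70, 17), (71, 17), (72, 18), (73, 19)]

def dec (n : ℕ) : ℕ × ℤ := (n / 16384, Int.subNatNat (n % 16384) 8192)

noncomputable def T (i j : ℕ) : List (ℕ × ℤ) := ((tblT.get i).get j).map dec

noncomputable def dg (i : ℕ) : ℕ := degT.get i

noncomputable def D0 : Data where
  N := 74
  T := T
  par := fun i => dg i % 2

noncomputable def chkGrade : Bool :=
  idxs.all fun p => idxs.all fun q => (T p.1 q.1).all fun r => Nat.blt r.1 74 && Nat.beq (dg r.1) (p.2 + q.2)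

def sgd (d e : ℕ) : ℤ := cond (Nat.beq ((d % 2) * (e % 2)) 1) (-1) 1

/-- append the multiple of a sparse vector -/
noncomputable def axpy (a : ℤ) (M tail : List (ℕ × ℤ)) : List (ℕ × ℤ) :=
  List.rec tail (fun q _ ih => (q.1, Int.mul a q.2) :: ih) M

noncomputable def bindR (a : ℤ) (f : ℕ → List (ℕ × ℤ)) (L tail : List (ℕ × ℤ)) : List (ℕ × ℤ) :=
  List.rec tail (fun q _ ih => axpy (Int.mul a q.2) (f q.1) ih) L

/-- sum of the entries with key k -/
noncomputable def ksum (k : ℕ) (L : List (ℕ × ℤ)) : ℤ :=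
  List.rec 0 (fun q _ ih => cond (Nat.beq q.1 k) (Int.add q.2 ih) ih) L

/-- remove the entries with key k -/
noncomputable def krem (k : ℕ) (L : List (ℕ × ℤ)) : List (ℕ × ℤ) :=
  List.rec [] (fun q _ ih => cond (Nat.beq q.1 k) ih (q :: ih)) L

noncomputable def isz (z : ℤ) : Bool := Int.rec (fun n => Nat.beq n 0) (fun _ => false) z

noncomputable def zeroAux (n : ℕ) : List (ℕ × ℤ) → Bool :=
  Nat.rec (fun L => List.rec true (fun _ _ _ => false) L)
    (fun _ f L => List.rec true (fun q M _ => cond (isz (Int.add q.2 (ksum q.1 M))) (f (krem q.1 M)) false) L) n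

noncomputable def AR (i j k : ℕ) (a : ℤ) (tail : List (ℕ × ℤ)) : List (ℕ × ℤ) :=
  bindR a (fun m => T m k) (T i j) (bindR (Int.neg a) (fun m => T i m) (T j k) tail)

noncomputable def chkL : Bool :=
  idxs.all fun p => idxs.all fun q => cond (Nat.blt q.1 p.1) true (cond (Nat.blt 19 (p.2 + q.2)) true (idxs.all fun r =>
    cond (Nat.blt 19 (p.2 + q.2 + r.2)) true
      (zeroAux 8 (AR p.1 q.1 r.1 1 (AR q.1 p.1 r.1 (sgd p.2 q.2) [])))))

noncomputable def chkR : Bool :=
  idxs.all fun p => idxs.all fun q => cond (Nat.blt 19 (p.2 + q.2)) true (idxs.all fun r =>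
    cond (Nat.blt r.1 q.1) true (cond (Nat.blt 19 (p.2 + q.2 + r.2)) true
      (zeroAux 8 (AR p.1 q.1 r.1 1 (AR p.1 r.1 q.1 (sgd q.2 r.2) [])))))

end Pool.Agent.Helper928.AltData
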