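import Mathlib
set_option autoImplicit false

namespace Pool.Agent.Helper928.AltIdent

section Words
variable {A : Type} [NonUnitalNonAssocRing A] [Module ℚ A] [IsScalarTower ℚ A A] [SMulCommClass ℚ A A]

/-- the commutator of a Jordan product of two commutators with an element -/
def fE (v : Fin 5 → A) : A :=
  ((v 0 * v 1 - v 1 * v 0) * (v 2 * v 3 - v 3 * v 2) + (v 2 * v 3 - v 3 * v 2) * (v 0 * v 1 - v 1 * v 0)) * v 4 -
  v 4 * ((v 0 * v 1 - v 1 * v 0) * (v 2 * v 3 - v 3 * v 2) + (v 2 * v 3 - v 3 * v 2) * (v 0 * v 1 - v 1 * v 0))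

variable (A) in
/-- left normed words as multilinear maps -/
noncomputable def lw : (n : ℕ) → MultilinearMap ℚ (fun _ : Fin (n + 1) => A) A
  | 0 => MultilinearMap.ofSubsingleton ℚ A A (0 : Fin 1) LinearMap.id
  | n + 1 => ((LinearMap.mul ℚ A).compMultilinearMap (lw n)).uncurryRight

lemma lw_zero (v : Fin 1 → A) : lw A 0 v = v 0 := by
  simp [lw]

lemma lw_succ (n : ℕ) (v : Fin (n + 2) → A) : lw A (n + 1) v = lw A n (Fin.init v) * v (Fin.last (n + 1)) := by
  simp [lw]

/-- the standard alternating sum of left normed words of length nine -/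
noncomputable def hE (v : Fin 9 → A) : A :=
  ∑ σ : Equiv.Perm (Fin 9), ((Equiv.Perm.sign σ : ℤˣ) : ℤ) • lw A 8 (fun i => v (σ i))

lemma hE_eq (v : Fin 9 → A) : hE v = MultilinearMap.alternatization (lw A 8) v := by
  rw [MultilinearMap.alternatization_apply]
  rfl

variable {A' : Type} [NonUnitalNonAssocRing A'] [Module ℚ A'] [IsScalarTower ℚ A' A'] [SMulCommClass ℚ A' A']

lemma map_fE (Φ : A →ₙₐ[ℚ] A') (v : Fin 5 → A) : Φ (fE v) = fE (fun i => Φ (v i)) := by
  simp [fE, map_sub, map_add, map_mul]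

lemma map_lw (Φ : A →ₙₐ[ℚ] A') (n : ℕ) (v : Fin (n + 1) → A) : Φ (lw A n v) = lw A' n (fun i => Φ (v i)) := by
  induction n with
  | zero => simp [lw_zero]
  | succ n ih =>
    rw [lw_succ, lw_succ, map_mul, ih]
    rfl

lemma map_hE (Φ : A →ₙₐ[ℚ] A') (v : Fin 9 → A) : Φ (hE v) = hE (fun i => Φ (v i)) := by
  unfold hE
  rw [map_sum]
  refine Finset.sum_congr rfl fun σ _ => ?_
  rw [map_zsmul, map_lw]

end Words

/-- the octonion algebra in the Zorn form -/
def Zorn : Type := Matrix (Fin 2) (Fin 2) ℚ × Matrix (Fin 2) (Fin 2) ℚ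

namespace Zorn

instance : AddCommGroup Zorn := inferInstanceAs (AddCommGroup (Matrix (Fin 2) (Fin 2) ℚ × Matrix (Fin 2) (Fin 2) ℚ))
instance : Module ℚ Zorn := inferInstanceAs (Module ℚ (Matrix (Fin 2) (Fin 2) ℚ × Matrix (Fin 2) (Fin 2) ℚ))

instance : Mul Zorn := ⟨fun x y =>
  ((x.1 * y.1 + Matrix.adjugate y.2 * x.2, y.2 * x.1 + x.2 * Matrix.adjugate y.1) :
    Matrix (Fin 2) (Fin 2) ℚ × Matrix (Fin 2) (Fin 2) ℚ)⟩

lemma mul_fst (x y : Zorn) : (x * y).1 = x.1 * y.1 + Matrix.adjugate y.2 * x.2 := rfl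
lemma mul_snd (x y : Zorn) : (x * y).2 = y.2 * x.1 + x.2 * Matrix.adjugate y.1 := rfl
lemma add_fst (x y : Zorn) : (x + y).1 = x.1 + y.1 := rfl
lemma add_snd (x y : Zorn) : (x + y).2 = x.2 + y.2 := rfl
lemma sub_fst (x y : Zorn) : (x - y).1 = x.1 - y.1 := rfl
lemma sub_snd (x y : Zorn) : (x - y).2 = x.2 - y.2 := rfl
lemma zero_fst : (0 : Zorn).1 = 0 := rfl
lemma zero_snd : (0 : Zorn).2 = 0 := rfl
lemma smul_fst (r : ℚ) (x : Zorn) : (r • x).1 = r • x.1 := rfl
lemma smul_snd (r : ℚ) (x : Zorn) : (r • x).2 = r • x.2 := rfl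

lemma ext' {x y : Zorn} (h1 : x.1 = y.1) (h2 : x.2 = y.2) : x = y := Prod.ext h1 h2

lemma adj_add (x y : Matrix (Fin 2) (Fin 2) ℚ) : Matrix.adjugate (x + y) = Matrix.adjugate x + Matrix.adjugate y := by
  rw [Matrix.adjugate_fin_two, Matrix.adjugate_fin_two, Matrix.adjugate_fin_two]
  ext i j
  fin_cases i <;> fin_cases j <;> simp [add_comm]

lemma adj_sub (x y : Matrix (Fin 2) (Fin 2) ℚ) : Matrix.adjugate (x - y) = Matrix.adjugate x - Matrix.adjugate y := by
  rw [Matrix.adjugate_fin_two, Matrix.adjugate_fin_two, Matrix.adjugate_fin_two]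
  ext i j
  fin_cases i <;> fin_cases j <;> simp <;> ring

lemma adj_smul (r : ℚ) (x : Matrix (Fin 2) (Fin 2) ℚ) : Matrix.adjugate (r • x) = r • Matrix.adjugate x := by
  rw [Matrix.adjugate_fin_two, Matrix.adjugate_fin_two]
  ext i j
  fin_cases i <;> fin_cases j <;> simp

lemma adj_zero : Matrix.adjugate (0 : Matrix (Fin 2) (Fin 2) ℚ) = 0 := by
  rw [Matrix.adjugate_fin_two]
  ext i j
  fin_cases i <;> fin_cases j <;> simp

lemma adj_adj (x : Matrix (Fin 2) (Fin 2) ℚ) : Matrix.adjugate (Matrix.adjugate x) = x := by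
  rw [Matrix.adjugate_fin_two, Matrix.adjugate_fin_two]
  ext i j
  fin_cases i <;> fin_cases j <;> simp

/-- the sum of a matrix and its adjugate is the trace -/
lemma add_adj (x : Matrix (Fin 2) (Fin 2) ℚ) : x + Matrix.adjugate x = x.trace • 1 := by
  rw [Matrix.adjugate_fin_two, Matrix.trace_fin_two]
  ext i j
  fin_cases i <;> fin_cases j <;> simp [add_comm]

noncomputable instance : NonUnitalNonAssocRing Zorn where
  left_distrib := by
    intro a b c
    apply ext'
    · rw [mul_fst, add_fst, add_fst, add_snd, adj_add, mul_fst, mul_fst, mul_add, add_mul]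
      abel
    · rw [mul_snd, add_snd, add_snd, add_fst, adj_add, mul_snd, mul_snd, mul_add, add_mul]
      abel
  right_distrib := by
    intro a b c
    apply ext'
    · rw [mul_fst, add_fst, add_fst, add_snd, mul_fst, mul_fst, mul_add, add_mul]
      abel
    · rw [mul_snd, add_snd, add_snd, add_fst, mul_snd, mul_snd, mul_add, add_mul]
      abel
  zero_mul := by
    intro a
    apply ext'
    · rw [mul_fst, zero_fst, zero_snd]; simp
    · rw [mul_snd, zero_fst, zero_snd]; simp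
  mul_zero := by
    intro a
    apply ext'
    · rw [mul_fst, zero_fst, zero_snd, adj_zero]; simp
    · rw [mul_snd, zero_fst, zero_snd, adj_zero]; simp

instance : IsScalarTower ℚ Zorn Zorn := ⟨by
  intro r a b
  rw [smul_eq_mul, smul_eq_mul]
  apply ext'
  · rw [smul_fst, mul_fst, mul_fst, smul_fst, smul_snd, smul_add]; simp
  · rw [smul_snd, mul_snd, mul_snd, smul_fst, smul_snd, smul_add]; simp⟩

instance : SMulCommClass ℚ Zorn Zorn := ⟨by
  intro r a b
  rw [smul_eq_mul, smul_eq_mul]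
  apply ext'
  · rw [smul_fst, mul_fst, mul_fst, smul_fst, smul_snd, smul_add, adj_smul]; simp
  · rw [smul_snd, mul_snd, mul_snd, smul_fst, smul_snd, smul_add, adj_smul]; simp⟩

/-- commutators have trace zero -/
lemma trace_comm (a b : Zorn) : (a * b - b * a).1.trace = 0 := by
  rw [sub_fst, mul_fst, mul_fst, Matrix.trace_sub, Matrix.trace_add, Matrix.trace_add, Matrix.trace_mul_comm a.1]
  rw [Matrix.adjugate_fin_two, Matrix.adjugate_fin_two]
  simp only [Matrix.trace_fin_two, Matrix.mul_apply, Fin.sum_univ_two]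
  simp
  ring

/-- the scalar element -/
def sc (s : ℚ) : Zorn := ((s • (1 : Matrix (Fin 2) (Fin 2) ℚ), 0) : Matrix (Fin 2) (Fin 2) ℚ × Matrix (Fin 2) (Fin 2) ℚ)

lemma jordan (u v : Zorn) (hu : u.1.trace = 0) (hv : v.1.trace = 0) : ∃ s, u * v + v * u = sc s := by
  refine ⟨(u.1 * v.1).trace + (Matrix.adjugate v.2 * u.2).trace, ?_⟩
  have hu' : Matrix.adjugate u.1 = - u.1 := by
    have := add_adj u.1
    rw [hu, zero_smul] at this
    exact eq_neg_of_add_eq_zero_right this
  have hv' : Matrix.adjugate v.1 = - v.1 := by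
    have := add_adj v.1
    rw [hv, zero_smul] at this
    exact eq_neg_of_add_eq_zero_right this
  apply ext'
  · rw [add_fst, mul_fst, mul_fst]
    have h1 : Matrix.adjugate (u.1 * v.1) = v.1 * u.1 := by
      rw [Matrix.adjugate_mul_distrib, hu', hv']; simp
    have h2 : Matrix.adjugate (Matrix.adjugate v.2 * u.2) = Matrix.adjugate u.2 * v.2 := by
      rw [Matrix.adjugate_mul_distrib, adj_adj]
    rw [← h1, ← h2]
    have h3 := add_adj (u.1 * v.1)
    have h4 := add_adj (Matrix.adjugate v.2 * u.2)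
    show _ = ((u.1 * v.1).trace + (Matrix.adjugate v.2 * u.2).trace) • (1 : Matrix (Fin 2) (Fin 2) ℚ)
    rw [add_smul, ← h3, ← h4]
    abel
  · rw [add_snd, mul_snd, mul_snd, hu', hv']
    show _ = (0 : Matrix (Fin 2) (Fin 2) ℚ)
    rw [mul_neg, mul_neg]
    abel

lemma sc_comm (s : ℚ) (w : Zorn) : sc s * w = w * sc s := by
  have h0 : Matrix.adjugate (sc s).2 = 0 := adj_zero
  have h1 : (sc s).2 = 0 := rfl
  have h2 : (sc s).1 = s • (1 : Matrix (Fin 2) (Fin 2) ℚ) := rfl
  have h3 : Matrix.adjugate (sc s).1 = s • (1 : Matrix (Fin 2) (Fin 2) ℚ) := by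
    rw [h2, adj_smul, Matrix.adjugate_one]
  apply ext'
  · rw [mul_fst, mul_fst, h0, h1, h2]; simp
  · rw [mul_snd, mul_snd, h1, h3, h2]; simp

lemma fE_zero (v : Fin 5 → Zorn) : fE v = 0 := by
  unfold fE
  obtain ⟨s, hs⟩ := jordan _ _ (trace_comm (v 0) (v 1)) (trace_comm (v 2) (v 3))
  rw [hs, sc_comm, sub_self]

lemma finrank_eq : Module.finrank ℚ Zorn = 8 := by
  have : Module.finrank ℚ (Matrix (Fin 2) (Fin 2) ℚ × Matrix (Fin 2) (Fin 2) ℚ) = 8 := by
    rw [Module.finrank_prod, Module.finrank_matrix]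
    simp
  exact this

instance : Module.Finite ℚ Zorn :=
  inferInstanceAs (Module.Finite ℚ (Matrix (Fin 2) (Fin 2) ℚ × Matrix (Fin 2) (Fin 2) ℚ))

lemma hE_zero (v : Fin 9 → Zorn) : hE v = 0 := by
  rw [hE_eq]
  apply AlternatingMap.map_linearDependent
  intro h
  have := h.fintype_card_le_finrank
  rw [finrank_eq] at this
  simp at this

end Zorn
end Pool.Agent.Helper928.AltIdent
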