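import Mathlib
set_option autoImplicit false
open scoped TensorProduct

namespace Pool.Agent.Helper928.StdGraded

section ExtPart
variable (F : Type) [Field F] (n : ℕ)

noncomputable def gen (i : Fin n) : ExteriorAlgebra F (Fin n → F) :=
  ExteriorAlgebra.ι F (Pi.single i 1)

noncomputable def E (l : List (Fin n)) : ExteriorAlgebra F (Fin n → F) := (l.map (gen F n)).prod

lemma E_nil : E F n [] = 1 := by simp [E]

lemma E_cons (i : Fin n) (l : List (Fin n)) : E F n (i :: l) = gen F n i * E F n l := by simp [E]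

lemma E_append (l l' : List (Fin n)) : E F n (l ++ l') = E F n l * E F n l' := by simp [E]

lemma gen_swap (i j : Fin n) : gen F n i * gen F n j = - (gen F n j * gen F n i) := by
  have := ExteriorAlgebra.ι_add_mul_swap (R := F) (Pi.single i 1 : Fin n → F) (Pi.single j 1)
  exact eq_neg_of_add_eq_zero_left this

lemma gen_E_swap (i : Fin n) (l : List (Fin n)) :
    gen F n i * E F n l = (-1) ^ l.length * (E F n l * gen F n i) := by
  induction l with
  | nil => simp [E]
  | cons j l ih =>
    rw [E_cons, ← mul_assoc, gen_swap, neg_mul, mul_assoc, ih, List.length_cons, pow_succ]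
    have hc : Commute ((-1 : ExteriorAlgebra F (Fin n → F)) ^ l.length) (gen F n j) :=
      (Commute.neg_one_left _).pow_left _
    rw [← mul_assoc (gen F n j), ← hc.eq]
    noncomm_ring

lemma E_swap (l l' : List (Fin n)) :
    E F n l * E F n l' = (-1) ^ (l.length * l'.length) * (E F n l' * E F n l) := by
  induction l with
  | nil => simp [E]
  | cons j l ih =>
    rw [E_cons, mul_assoc, ih, List.length_cons, Nat.succ_mul, pow_add]
    have hc : Commute ((-1 : ExteriorAlgebra F (Fin n → F)) ^ (l.length * l'.length)) (gen F n j) :=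
      (Commute.neg_one_left _).pow_left _
    rw [← mul_assoc (gen F n j), ← hc.eq, mul_assoc, ← mul_assoc (gen F n j), gen_E_swap]
    simp only [mul_assoc]

lemma E_dup (l : List (Fin n)) (h : ¬ l.Nodup) : E F n l = 0 := by
  have h1 : E F n l = ExteriorAlgebra.ιMulti F l.length (fun i => (Pi.single (l.get i) 1 : Fin n → F)) := by
    rw [ExteriorAlgebra.ιMulti_apply]
    unfold E
    congr 1
    apply List.ext_get
    · simp
    · intro m h1 h2
      simp [gen]
  rw [h1]
  rw [List.nodup_iff_injective_get] at h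
  simp only [Function.Injective, not_forall] at h
  obtain ⟨a, b, hab, hne⟩ := h
  apply AlternatingMap.map_eq_zero_of_eq _ _ _ hne
  simp only [hab]

lemma E_sq (l : List (Fin n)) (h : l ≠ []) : E F n l * E F n l = 0 := by
  rw [← E_append]
  apply E_dup
  intro hn
  rw [List.nodup_append] at hn
  obtain ⟨a, ha⟩ := List.exists_mem_of_ne_nil l h
  exact hn.2.2 a ha a ha rfl

lemma E_long (l : List (Fin n)) (h : n + 1 ≤ l.length) : E F n l = 0 := by
  apply E_dup
  intro hn
  have := hn.length_le_card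
  simp at this
  omega

end ExtPart

section RingPart

/-- what is needed of the coefficient ring -/
structure Sys {A B G : Type} [Ring A] [Ring B] [AddCommGroup G] (n : ℕ) (M : G → Set A)
    (μ : A → List (Fin n) → B) : Prop where
  gmul : ∀ g h, ∀ a ∈ M g, ∀ b ∈ M h, a * b ∈ M (g + h)
  mul : ∀ a a' l l', μ a l * μ a' l' = μ (a * a') (l ++ l')
  long : ∀ a l, n + 1 ≤ l.length → μ a l = 0
  swap : ∀ a ∈ M 0, ∀ a' ∈ M 0, ∀ l l', μ a l * μ a' l' = (-1) ^ (l.length * l'.length) * (μ a' l' * μ a l)
  sq : ∀ a l, l ≠ [] → μ a l * μ a l = 0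
  one_mem : (1 : A) ∈ M 0
  one : μ 1 [] = 1

variable {n : ℕ} {A B G : Type} [Ring A] [Ring B] [AddCommGroup G] {M : G → Set A} {μ : A → List (Fin n) → B}

/-- weighted monomials -/
noncomputable def mono (μ : A → List (Fin n) → B) (a : A) (l : List (Fin n)) (c : G → ℕ) :
    AddMonoidAlgebra B (G → ℕ) := AddMonoidAlgebra.single c (μ a l)

/-- G-degree g, exterior length at least j -/
noncomputable def S (M : G → Set A) (μ : A → List (Fin n) → B) (g : G) (j : ℕ) :
    AddSubgroup (AddMonoidAlgebra B (G → ℕ)) :=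
  AddSubgroup.closure {z | ∃ a ∈ M g, ∃ l : List (Fin n), j ≤ l.length ∧ ∃ c, z = mono μ a l c}

lemma mono_mem_S {g : G} {j : ℕ} {a : A} (ha : a ∈ M g) {l : List (Fin n)} (hl : j ≤ l.length) (c : G → ℕ) :
    mono μ a l c ∈ S M μ g j :=
  AddSubgroup.subset_closure ⟨a, ha, l, hl, c, rfl⟩

lemma mono_mul (hS : Sys n M μ) (a a' : A) (l l' : List (Fin n)) (c c' : G → ℕ) :
    mono μ a l c * mono μ a' l' c' = mono μ (a * a') (l ++ l') (c + c') := by
  simp only [mono, AddMonoidAlgebra.single_mul_single, hS.mul]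

lemma S_mul (hS : Sys n M μ) {g h : G} {i j : ℕ} {y z : AddMonoidAlgebra B (G → ℕ)} (hy : y ∈ S M μ g i)
    (hz : z ∈ S M μ h j) : y * z ∈ S M μ (g + h) (i + j) := by
  induction hy using AddSubgroup.closure_induction with
  | mem y hy =>
    obtain ⟨a, ha, l, hl, c, rfl⟩ := hy
    induction hz using AddSubgroup.closure_induction with
    | mem z hz =>
      obtain ⟨a', ha', l', hl', c', rfl⟩ := hz
      rw [mono_mul hS]
      apply mono_mem_S
      · exact hS.gmul _ _ _ ha _ ha'
      · simp only [List.length_append]; omega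
    | zero => rw [mul_zero]; exact AddSubgroup.zero_mem _
    | add u v _ _ hu hv => rw [mul_add]; exact AddSubgroup.add_mem _ hu hv
    | neg u _ hu => rw [mul_neg]; exact AddSubgroup.neg_mem _ hu
  | zero => rw [zero_mul]; exact AddSubgroup.zero_mem _
  | add u v _ _ hu hv => rw [add_mul]; exact AddSubgroup.add_mem _ hu hv
  | neg u _ hu => rw [neg_mul]; exact AddSubgroup.neg_mem _ hu

lemma S_long (hS : Sys n M μ) {g : G} {j : ℕ} (hj : n + 1 ≤ j) {y : AddMonoidAlgebra B (G → ℕ)}
    (hy : y ∈ S M μ g j) : y = 0 := by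
  induction hy using AddSubgroup.closure_induction with
  | mem y hy =>
    obtain ⟨a, ha, l, hl, c, rfl⟩ := hy
    rw [mono, hS.long _ _ (by omega)]
    simp
  | zero => rfl
  | add u v _ _ hu hv => rw [hu, hv, add_zero]
  | neg u _ hu => rw [hu, neg_zero]

lemma S_mono {g : G} {i j : ℕ} (hij : i ≤ j) : S M μ g j ≤ S M μ g i := by
  apply AddSubgroup.closure_mono
  rintro z ⟨a, ha, l, hl, c, rfl⟩
  exact ⟨a, ha, l, le_trans hij hl, c, rfl⟩

/-- closed elements of parity b -/
noncomputable def P (M : G → Set A) (μ : A → List (Fin n) → B) (b : ℕ) : AddSubgroup (AddMonoidAlgebra B (G → ℕ)) :=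
  AddSubgroup.closure {z | ∃ a ∈ M 0, ∃ l : List (Fin n), l ≠ [] ∧ l.length % 2 = b ∧ ∃ c, z = mono μ a l c}

lemma neg_one_pow_single (k : ℕ) : (-1 : AddMonoidAlgebra B (G → ℕ)) ^ k =
    AddMonoidAlgebra.single 0 ((-1 : B) ^ k) := by
  rcases Nat.even_or_odd k with hk | hk
  · rw [hk.neg_one_pow, hk.neg_one_pow]; rfl
  · rw [hk.neg_one_pow, hk.neg_one_pow, AddMonoidAlgebra.one_def]
    ext; simp

lemma mono_swap (hS : Sys n M μ) (a a' : A) (ha : a ∈ M 0) (ha' : a' ∈ M 0)
    (l l' : List (Fin n)) (c c' : G → ℕ) :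
    mono μ a l c * mono μ a' l' c' =
      (-1) ^ (l.length * l'.length) * (mono μ a' l' c' * mono μ a l c) := by
  rw [neg_one_pow_single]
  simp only [mono, AddMonoidAlgebra.single_mul_single]
  rw [hS.swap a ha a' ha', add_comm c c', zero_add]

lemma P_comm (hS : Sys n M μ) {b b' : ℕ} (hb : b * b' = 0) {y z : AddMonoidAlgebra B (G → ℕ)}
    (hy : y ∈ P M μ b) (hz : z ∈ P M μ b') : y * z = z * y := by
  induction hy using AddSubgroup.closure_induction with
  | mem y hy =>
    obtain ⟨a, ha, l, hne, hl, c, rfl⟩ := hy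
    induction hz using AddSubgroup.closure_induction with
    | mem z hz =>
      obtain ⟨a', ha', l', hne', hl', c', rfl⟩ := hz
      rw [mono_swap hS a a' ha ha']
      have : Even (l.length * l'.length) := by
        rcases mul_eq_zero.mp hb with h | h
        · subst h; exact (Nat.even_iff.mpr hl).mul_right _
        · subst h; exact (Nat.even_iff.mpr hl').mul_left _
      rw [this.neg_one_pow, one_mul]
    | zero => rw [mul_zero, zero_mul]
    | add u v _ _ hu hv => rw [mul_add, add_mul, hu, hv]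
    | neg u _ hu => rw [mul_neg, neg_mul, hu]
  | zero => rw [mul_zero, zero_mul]
  | add u v _ _ hu hv => rw [mul_add, add_mul, hu, hv]
  | neg u _ hu => rw [mul_neg, neg_mul, hu]

lemma P_anti (hS : Sys n M μ) {y z : AddMonoidAlgebra B (G → ℕ)}
    (hy : y ∈ P M μ 1) (hz : z ∈ P M μ 1) : y * z = - (z * y) := by
  induction hy using AddSubgroup.closure_induction with
  | mem y hy =>
    obtain ⟨a, ha, l, hne, hl, c, rfl⟩ := hy
    induction hz using AddSubgroup.closure_induction with
    | mem z hz =>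
      obtain ⟨a', ha', l', hne', hl', c', rfl⟩ := hz
      rw [mono_swap hS a a' ha ha']
      have : Odd (l.length * l'.length) := (Nat.odd_iff.mpr hl).mul (Nat.odd_iff.mpr hl')
      rw [this.neg_one_pow, neg_mul, one_mul]
    | zero => simp
    | add u v _ _ hu hv => rw [mul_add, add_mul, hu, hv, neg_add]
    | neg u _ hu => rw [mul_neg, neg_mul, hu]
  | zero => simp
  | add u v _ _ hu hv => rw [mul_add, add_mul, hu, hv, neg_add]
  | neg u _ hu => rw [mul_neg, neg_mul, hu]

lemma mono_sq (hS : Sys n M μ) (a : A) (l : List (Fin n)) (hl : l ≠ []) (c : G → ℕ) :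
    mono μ a l c * mono μ a l c = 0 := by
  simp only [mono, AddMonoidAlgebra.single_mul_single]
  rw [hS.sq a l hl]
  simp

lemma P_one_sq (hS : Sys n M μ) {y : AddMonoidAlgebra B (G → ℕ)} (hy : y ∈ P M μ 1) : y * y = 0 := by
  induction hy using AddSubgroup.closure_induction with
  | mem y hy =>
    obtain ⟨a, ha, l, hne, hl, c, rfl⟩ := hy
    exact mono_sq hS a l hne c
  | zero => simp
  | add u v hu' hv' hu hv =>
    rw [mul_add, add_mul, add_mul, hu, hv, P_anti hS hv' hu']
    simp
  | neg u _ hu => simp [hu]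

lemma P_zero_pow (hS : Sys n M μ) {p : ℕ} [Fact p.Prime] [CharP (AddMonoidAlgebra B (G → ℕ)) p]
    {y : AddMonoidAlgebra B (G → ℕ)} (hy : y ∈ P M μ 0) : y ^ p = 0 := by
  have hp : 2 ≤ p := (Fact.out : p.Prime).two_le
  induction hy using AddSubgroup.closure_induction with
  | mem y hy =>
    obtain ⟨a, ha, l, hne, hl, c, rfl⟩ := hy
    obtain ⟨q, rfl⟩ : ∃ q, p = q + 2 := ⟨p - 2, by omega⟩
    rw [pow_add, pow_two, mono_sq hS a l hne c, mul_zero]
  | zero => exact zero_pow (by omega)
  | add u v hu' hv' hu hv =>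
    have hc : Commute u v := P_comm hS (by rfl) hu' hv'
    rw [add_pow_char_of_commute p hc, hu, hv, add_zero]
  | neg u _ hu =>
    rw [neg_pow, hu, mul_zero]

/-- a closed element of positive length has vanishing p-th power -/
lemma closed_pow (hS : Sys n M μ) {p : ℕ} [Fact p.Prime] [CharP (AddMonoidAlgebra B (G → ℕ)) p]
    {y : AddMonoidAlgebra B (G → ℕ)} (hy : y ∈ S M μ 0 1) : y ^ p = 0 := by
  have hp : 2 ≤ p := (Fact.out : p.Prime).two_le
  have h1 : y ∈ P M μ 0 ⊔ P M μ 1 := by
    revert hy y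
    show S M μ 0 1 ≤ _
    unfold S
    rw [AddSubgroup.closure_le]
    rintro z ⟨a, ha, l, hl, c, rfl⟩
    have hne : l ≠ [] := by
      rintro rfl
      simp at hl
    rcases Nat.mod_two_eq_zero_or_one l.length with h | h
    · apply AddSubgroup.mem_sup_left
      exact AddSubgroup.subset_closure ⟨a, ha, l, hne, h, c, rfl⟩
    · apply AddSubgroup.mem_sup_right
      exact AddSubgroup.subset_closure ⟨a, ha, l, hne, h, c, rfl⟩
  obtain ⟨u, hu, v, hv, rfl⟩ := AddSubgroup.mem_sup.mp h1
  have hc : Commute u v := P_comm hS (by rfl) hu hv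
  rw [add_pow_char_of_commute p hc, P_zero_pow hS hu]
  obtain ⟨q, rfl⟩ : ∃ q, p = q + 2 := ⟨p - 2, by omega⟩
  rw [pow_add, pow_two v, P_one_sq hS hv, mul_zero, add_zero]

/-- t_v-degree at most d -/
noncomputable def D (v : G) (d : ℕ) : AddSubgroup (AddMonoidAlgebra B (G → ℕ)) where
  carrier := {f | ∀ c, f.coeff c ≠ 0 → c v ≤ d}
  zero_mem' := by intro c hc; simp at hc
  add_mem' := by
    intro f g hf hg c hc
    by_cases h : f.coeff c = 0
    · by_cases h' : g.coeff c = 0
      · simp [h, h'] at hc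
      · exact hg c h'
    · exact hf c h
  neg_mem' := by
    intro f hf c hc
    apply hf c
    intro h
    apply hc
    simp [h]

lemma D_mul {v : G} {d e : ℕ} {f g : AddMonoidAlgebra B (G → ℕ)} (hf : f ∈ D v d) (hg : g ∈ D v e) :
    f * g ∈ D v (d + e) := by
  classical
  intro c hc
  have h1 : c ∈ (f * g).coeff.support := by simpa using hc
  have h2 := AddMonoidAlgebra.support_coeff_mul_subset f g h1
  rw [Finset.mem_add] at h2
  obtain ⟨a, ha, b, hb, rfl⟩ := h2
  have ha' := hf a (by simpa using ha)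
  have hb' := hg b (by simpa using hb)
  simp only [Pi.add_apply]
  omega

lemma D_mono {v : G} {d e : ℕ} (h : d ≤ e) : (D v d : AddSubgroup (AddMonoidAlgebra B (G → ℕ))) ≤ D v e :=
  fun _ hf c hc => le_trans (hf c hc) h

lemma one_mem_D {v : G} {d : ℕ} : (1 : AddMonoidAlgebra B (G → ℕ)) ∈ D v d := by
  intro c hc
  rw [AddMonoidAlgebra.one_def] at hc
  simp only [AddMonoidAlgebra.coeff_single, Finsupp.single_apply] at hc
  by_cases h : (0 : G → ℕ) = c
  · subst h; simp
  · simp [h] at hc


lemma one_mem_S (hS : Sys n M μ) : (1 : AddMonoidAlgebra B (G → ℕ)) ∈ S M μ 0 0 := by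
  have h : (1 : AddMonoidAlgebra B (G → ℕ)) = mono μ 1 [] 0 := by
    rw [mono, hS.one, AddMonoidAlgebra.one_def]
  rw [h]
  have h2 : (0 : ℕ) ≤ ([] : List (Fin n)).length := Nat.zero_le _
  exact mono_mem_S hS.one_mem h2 0

variable [Fintype G] [DecidableEq G]

lemma pow_mem_S (hS : Sys n M μ) (U : Matrix G G (AddMonoidAlgebra B (G → ℕ)))
    (hU : ∀ u w, U u w ∈ S M μ (w - u) 1) (m : ℕ) : ∀ u w, (U ^ m) u w ∈ S M μ (w - u) m := by
  induction m with
  | zero =>
    intro u w
    rw [pow_zero, Matrix.one_apply]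
    split_ifs with h
    · subst h; rw [sub_self]; exact one_mem_S hS
    · exact AddSubgroup.zero_mem _
  | succ m ih =>
    intro u w
    rw [pow_succ, Matrix.mul_apply]
    apply AddSubgroup.sum_mem
    intro z _
    have := S_mul hS (ih u z) (hU z w)
    rwa [show z - u + (w - z) = w - u by abel] at this

lemma pow_eq_zero_of_S (hS : Sys n M μ) (U : Matrix G G (AddMonoidAlgebra B (G → ℕ)))
    (hU : ∀ u w, U u w ∈ S M μ (w - u) 1) : U ^ (n + 1) = 0 := by
  ext1 u w
  exact S_long hS (le_refl _) (pow_mem_S hS U hU (n + 1) u w)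

lemma pow_mem_D {v : G} (U : Matrix G G (AddMonoidAlgebra B (G → ℕ)))
    (hU : ∀ u w, U u w ∈ D v 0) (m : ℕ) : ∀ u w, (U ^ m) u w ∈ D v 0 := by
  induction m with
  | zero =>
    intro u w
    rw [pow_zero, Matrix.one_apply]
    split_ifs with h
    · exact one_mem_D
    · exact AddSubgroup.zero_mem _
  | succ m ih =>
    intro u w
    rw [pow_succ, Matrix.mul_apply]
    apply AddSubgroup.sum_mem
    intro z _
    exact D_mul (ih u z) (hU z w)

lemma elt_pow_mem_D {v : G} {f : AddMonoidAlgebra B (G → ℕ)} (hf : f ∈ D v 1) (m : ℕ) : f ^ m ∈ D v m := by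
  induction m with
  | zero => rw [pow_zero]; exact one_mem_D
  | succ m ih => rw [pow_succ]; exact D_mul ih hf

/-- the step matrix -/
noncomputable def T (X : G → B) : Matrix G G (AddMonoidAlgebra B (G → ℕ)) :=
  fun u w => AddMonoidAlgebra.single (Pi.single w 1) (X (w - u))

lemma T_pow_total (X : G → B) (m : ℕ) : ∀ u w c, ((T X ^ m) u w).coeff c ≠ 0 → ∑ v, c v = m := by
  induction m with
  | zero =>
    intro u w c hc
    rw [pow_zero, Matrix.one_apply] at hc
    split_ifs at hc with h
    · rw [AddMonoidAlgebra.one_def, AddMonoidAlgebra.coeff_single] at hc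
      by_cases h0 : (0 : G → ℕ) = c
      · subst h0; simp
      · simp [h0] at hc
    · simp at hc
  | succ m ih =>
    intro u w c hc
    rw [pow_succ, Matrix.mul_apply] at hc
    rw [AddMonoidAlgebra.coeff_sum, Finsupp.finsetSum_apply] at hc
    obtain ⟨z, _, hz⟩ := Finset.exists_ne_zero_of_sum_ne_zero hc
    have h1 : c ∈ ((T X ^ m) u z * T X z w).coeff.support := by simpa using hz
    have h2 := AddMonoidAlgebra.support_coeff_mul_subset _ _ h1
    rw [Finset.mem_add] at h2
    obtain ⟨a, ha, b, hb, rfl⟩ := h2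
    have ha' := ih u z a (by simpa using ha)
    have hb' : b = Pi.single w 1 := by
      unfold T at hb
      rw [AddMonoidAlgebra.coeff_single] at hb
      have := Finsupp.support_single_subset hb
      simpa using this
    subst hb'
    simp only [Pi.add_apply, Finset.sum_add_distrib, ha']
    simp

theorem key (hS : Sys n M μ) {p : ℕ} [Fact p.Prime] [CharP (AddMonoidAlgebra B (G → ℕ)) p]
    (X : G → B) (hX : ∀ g c, AddMonoidAlgebra.single c (X g) ∈ S M μ g 1)
    (hn : n = Fintype.card G * p) : T X ^ n = 0 := by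
  have hp : 2 ≤ p := (Fact.out : p.Prime).two_le
  have hT : ∀ u w, T X u w ∈ S M μ (w - u) 1 := fun u w => hX _ _
  have hTn := pow_eq_zero_of_S hS (T X) hT
  set Q := ∑ i ∈ Finset.range (n + 1), T X ^ i with hQ
  have hQ1 : (1 - T X) * Q = 1 := by
    have := mul_geom_sum (T X) (n + 1)
    rw [hTn, ← hQ] at this
    rw [← neg_sub, neg_mul, this]; simp
  -- bound for every v
  have main : ∀ v : G, (∀ w, Q v w ∈ D v (p - 1)) ∧ (∀ u w, Q u w ∈ D v p) := by
    intro v
    set T2 : Matrix G G (AddMonoidAlgebra B (G → ℕ)) := fun u w => if w = v then 0 else T X u w with hT2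
    set T1 : Matrix G G (AddMonoidAlgebra B (G → ℕ)) := fun u w => if w = v then T X u w else 0 with hT1
    have hsum : T X = T1 + T2 := by
      ext1 u w
      rw [Matrix.add_apply]
      simp only [hT1, hT2]
      split_ifs <;> simp
    have hT2S : ∀ u w, T2 u w ∈ S M μ (w - u) 1 := by
      intro u w
      simp only [hT2]
      split_ifs
      · exact AddSubgroup.zero_mem _
      · exact hT u w
    have hT1S : ∀ u w, T1 u w ∈ S M μ (w - u) 1 := by
      intro u w
      simp only [hT1]
      split_ifs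
      · exact hT u w
      · exact AddSubgroup.zero_mem _
    have hT2D : ∀ u w, T2 u w ∈ D v 0 := by
      intro u w
      simp only [hT2]
      split_ifs with h
      · exact AddSubgroup.zero_mem _
      · intro c hc
        unfold T at hc
        rw [AddMonoidAlgebra.coeff_single] at hc
        have : c = Pi.single w 1 := by
          by_contra hne
          exact hc (by simp [Finsupp.single_apply, Ne.symm hne])
        subst this
        simp [Pi.single_apply, Ne.symm h]
    have hT1D : ∀ u w, T1 u w ∈ D v 1 := by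
      intro u w
      simp only [hT1]
      split_ifs with h
      · intro c hc
        unfold T at hc
        rw [AddMonoidAlgebra.coeff_single] at hc
        have : c = Pi.single w 1 := by
          by_contra hne
          exact hc (by simp [Finsupp.single_apply, Ne.symm hne])
        subst this
        simp [Pi.single_apply, h]
      · exact AddSubgroup.zero_mem _
    have hT2n := pow_eq_zero_of_S hS T2 hT2S
    set Q2 := ∑ i ∈ Finset.range (n + 1), T2 ^ i with hQ2
    have hQ21 : Q2 * (1 - T2) = 1 := by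
      have := geom_sum_mul T2 (n + 1)
      rw [hT2n, ← hQ2] at this
      rw [← neg_sub, mul_neg, this]; simp
    have hQ2S : ∀ u w, Q2 u w ∈ S M μ (w - u) 0 := by
      intro u w
      rw [hQ2, Matrix.sum_apply]
      apply AddSubgroup.sum_mem
      intro i _
      exact S_mono (Nat.zero_le i) (pow_mem_S hS T2 hT2S i u w)
    have hQ2D : ∀ u w, Q2 u w ∈ D v 0 := by
      intro u w
      rw [hQ2, Matrix.sum_apply]
      apply AddSubgroup.sum_mem
      intro i _
      exact pow_mem_D T2 hT2D i u w
    have hres : Q = Q2 + Q2 * T1 * Q := by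
      have h1 : Q2 * (1 - T2) * Q = Q := by rw [hQ21, one_mul]
      have h2 : (1 - T2) = (1 - T X) + T1 := by rw [hsum]; abel
      rw [h2, mul_assoc, add_mul, hQ1, mul_add, mul_one, ← mul_assoc] at h1
      exact h1.symm
    have hcol : ∀ u w, w ≠ v → (Q2 * T1) u w = 0 := by
      intro u w hw
      rw [Matrix.mul_apply]
      apply Finset.sum_eq_zero
      intro z _
      simp [hT1, hw]
    have hent : ∀ u w, Q u w = Q2 u w + (Q2 * T1) u v * Q v w := by
      intro u w
      conv_lhs => rw [hres]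
      rw [Matrix.add_apply, Matrix.mul_apply (M := Q2 * T1)]
      congr 1
      apply Finset.sum_eq_single v
      · intro z _ hz
        rw [hcol u z hz, zero_mul]
      · intro h; exact absurd (Finset.mem_univ v) h
    have hfD : ∀ u, (Q2 * T1) u v ∈ D v 1 := by
      intro u
      rw [Matrix.mul_apply]
      apply AddSubgroup.sum_mem
      intro z _
      have := D_mul (hQ2D u z) (hT1D z v)
      simpa using this
    have hfS : (Q2 * T1) v v ∈ S M μ 0 1 := by
      rw [Matrix.mul_apply]
      apply AddSubgroup.sum_mem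
      intro z _
      have := S_mul hS (hQ2S v z) (hT1S z v)
      rwa [show z - v + (v - z) = 0 by abel, zero_add] at this
    have hfp := closed_pow (p := p) hS hfS
    set f := (Q2 * T1) v v with hf
    have hQv : ∀ w, Q v w = (∑ i ∈ Finset.range p, f ^ i) * Q2 v w := by
      intro w
      have h1 : (1 - f) * Q v w = Q2 v w := by
        rw [sub_mul, one_mul, sub_eq_iff_eq_add]
        exact hent v w
      rw [← h1, ← mul_assoc]
      have h2 : (∑ i ∈ Finset.range p, f ^ i) * (1 - f) = 1 := by
        have := geom_sum_mul f p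
        rw [hfp] at this
        rw [← neg_sub, mul_neg, this]; simp
      rw [h2, one_mul]
    have hQvD : ∀ w, Q v w ∈ D v (p - 1) := by
      intro w
      rw [hQv]
      have h1 : (∑ i ∈ Finset.range p, f ^ i) ∈ D v (p - 1) := by
        apply AddSubgroup.sum_mem
        intro i hi
        have : i ≤ p - 1 := by
          have := Finset.mem_range.mp hi
          omega
        exact D_mono this (elt_pow_mem_D (hfD v) i)
      simpa using D_mul h1 (hQ2D v w)
    refine ⟨hQvD, ?_⟩
    intro u w
    rw [hent u w]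
    apply AddSubgroup.add_mem
    · exact D_mono (Nat.zero_le _) (hQ2D u w)
    · have := D_mul (hfD u) (hQvD w)
      rwa [show 1 + (p - 1) = p by omega] at this
  -- conclusion
  ext1 u w
  rw [Matrix.zero_apply]
  apply AddMonoidAlgebra.coeff_injective
  ext c
  by_contra hne
  have hne' : ((T X ^ n) u w).coeff c ≠ 0 := by simpa using hne
  have htot := T_pow_total X n u w c hne'
  have hQc : (Q u w).coeff c ≠ 0 := by
    rw [hQ, Matrix.sum_apply, AddMonoidAlgebra.coeff_sum, Finsupp.finsetSum_apply,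
      Finset.sum_eq_single n]
    · exact hne'
    · intro i _ hi
      by_contra h
      exact hi ((T_pow_total X i u w c h).symm.trans htot)
    · intro h; exact absurd (Finset.mem_range.mpr (Nat.lt_succ_self n)) h
  have hcu : c u ≤ p - 1 := (main u).1 w c hQc
  have hcv : ∀ v, c v ≤ p := fun v => (main v).2 u w c hQc
  have hlt : ∑ v, c v < ∑ _v : G, p :=
    Finset.sum_lt_sum (fun v _ => hcv v) ⟨u, Finset.mem_univ u, by omega⟩
  rw [htot, Finset.sum_const, Finset.card_univ, smul_eq_mul, ← hn] at hlt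
  exact lt_irrefl _ hlt

/-- the generating element is nilpotent of index at most card G * p -/
theorem key2 (hS : Sys n M μ) {p : ℕ} [Fact p.Prime] [CharP (AddMonoidAlgebra B (G → ℕ)) p]
    (X : G → B) (hX : ∀ g c, AddMonoidAlgebra.single c (X g) ∈ S M μ g 1)
    (hn : n = Fintype.card G * p) : (∑ g, X g) ^ n = 0 := by
  let ε : AddMonoidAlgebra B (G → ℕ) →+* B :=
    AddMonoidAlgebra.liftNCRingHom (RingHom.id B) (1 : Multiplicative (G → ℕ) →* B) (by intro x y; simp)
  have hε : ∀ c b, ε (AddMonoidAlgebra.single c b) = b := by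
    intro c b
    simp [ε, AddMonoidAlgebra.liftNCRingHom]
  have h1 : (ε.mapMatrix (T X)) ^ n = 0 := by
    rw [← map_pow, key hS X hX hn, map_zero]
  have h2 : ∀ m : ℕ, Matrix.mulVec ((ε.mapMatrix (T X)) ^ m) (fun _ => 1) = fun _ => (∑ g, X g) ^ m := by
    intro m
    induction m with
    | zero => simp
    | succ m ih =>
      rw [pow_succ', ← Matrix.mulVec_mulVec, ih]
      funext u
      simp only [Matrix.mulVec, dotProduct, RingHom.mapMatrix_apply, Matrix.map_apply, T, hε]
      rw [← Finset.sum_mul, pow_succ']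
      congr 1
      exact Fintype.sum_equiv (Equiv.subRight u) _ _ (fun w => by simp)
  have h3 := congrFun (h2 n) 0
  rw [h1, Matrix.zero_mulVec] at h3
  simpa using h3.symm

end RingPart

section Final
variable (F : Type) [Field F] (A : Type) [Ring A] [Algebra F A]

lemma prod_ofFn_tmul (n m : ℕ) (y : Fin m → A) (r : Fin m → Fin n) :
    (List.ofFn (fun i => (y i) ⊗ₜ[F] (gen F n (r i)))).prod =
      (List.ofFn y).prod ⊗ₜ[F] (E F n (List.ofFn r)) := by
  induction m with
  | zero => simp [E, Algebra.TensorProduct.one_def]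
  | succ m ih =>
    rw [List.ofFn_succ, List.prod_cons, ih, List.ofFn_succ, List.prod_cons, List.ofFn_succ, E_cons,
      Algebra.TensorProduct.tmul_mul_tmul]

lemma E_ofFn (n : ℕ) (r : Fin n → Fin n) :
    E F n (List.ofFn r) = ExteriorAlgebra.ιMulti F n (fun i => (Pi.single (r i) 1 : Fin n → F)) := by
  rw [ExteriorAlgebra.ιMulti_apply]
  unfold E
  rw [List.map_ofFn]
  rfl

noncomputable def top (n : ℕ) : ExteriorAlgebra F (Fin n → F) :=
  ExteriorAlgebra.ιMulti F n (fun i => (Pi.single i 1 : Fin n → F))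

/-- functional that is one on the top form -/
noncomputable def φ (n : ℕ) : ExteriorAlgebra F (Fin n → F) →ₗ[F] F :=
  ExteriorAlgebra.liftAlternating (fun i => if h : i = n then h ▸ Matrix.detRowAlternating else 0)

lemma φ_top (n : ℕ) : φ F n (top F n) = 1 := by
  unfold φ top
  rw [ExteriorAlgebra.liftAlternating_apply_ιMulti]
  simp only [dite_true]
  have : (fun i => (Pi.single i 1 : Fin n → F)) = (1 : Matrix (Fin n) (Fin n) F) := by
    ext i j
    simp [Matrix.one_apply, Pi.single_apply, eq_comm]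
  rw [this]
  exact Matrix.det_one

lemma power_expand (n : ℕ) (x : Fin n → A) :
    (∑ i, (x i) ⊗ₜ[F] (gen F n i)) ^ n =
      (∑ σ : Equiv.Perm (Fin n), ((Equiv.Perm.sign σ : ℤˣ) : ℤ) • (List.ofFn (fun i => x (σ i))).prod) ⊗ₜ[F]
        (top F n) := by
  have h1 : (∑ i, (x i) ⊗ₜ[F] (gen F n i)) ^ n =
      MultilinearMap.mkPiAlgebraFin F n (A ⊗[F] ExteriorAlgebra F (Fin n → F))
        (fun _ => ∑ i, (x i) ⊗ₜ[F] (gen F n i)) := by
    rw [MultilinearMap.mkPiAlgebraFin_apply, List.ofFn_const, List.prod_replicate]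
  rw [h1, MultilinearMap.map_sum]
  simp only [MultilinearMap.mkPiAlgebraFin_apply]
  have h2 : ∀ r : Fin n → Fin n, (List.ofFn (fun i => (x (r i)) ⊗ₜ[F] (gen F n (r i)))).prod =
      (List.ofFn (fun i => x (r i))).prod ⊗ₜ[F]
        (ExteriorAlgebra.ιMulti F n (fun i => (Pi.single (r i) 1 : Fin n → F))) := by
    intro r
    rw [prod_ofFn_tmul F A n n (fun i => x (r i)) r, E_ofFn]
  simp only [h2]
  -- restrict to permutations
  have h3 : ∑ r : Fin n → Fin n, (List.ofFn (fun i => x (r i))).prod ⊗ₜ[F]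
        (ExteriorAlgebra.ιMulti F n (fun i => (Pi.single (r i) 1 : Fin n → F))) =
      ∑ σ : Equiv.Perm (Fin n), (List.ofFn (fun i => x (σ i))).prod ⊗ₜ[F]
        (ExteriorAlgebra.ιMulti F n (fun i => (Pi.single (σ i) 1 : Fin n → F))) := by
    symm
    apply Finset.sum_of_injOn (fun σ : Equiv.Perm (Fin n) => (σ : Fin n → Fin n))
    · intro σ _ τ _ h
      exact Equiv.coe_fn_injective h
    · intro σ _; simp
    · intro r _ hr
      have hni : ¬ Function.Injective r := by
        intro hinj
        apply hr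
        refine ⟨Equiv.ofBijective r (Finite.injective_iff_bijective.mp hinj), by simp, rfl⟩
      simp only [Function.Injective, not_forall] at hni
      obtain ⟨a, b, hab, hne⟩ := hni
      rw [AlternatingMap.map_eq_zero_of_eq _ _ (by simp only [hab]) hne, TensorProduct.tmul_zero]
    · intro σ _; rfl
  rw [h3, TensorProduct.sum_tmul]
  apply Finset.sum_congr rfl
  intro σ _
  have h4 : ExteriorAlgebra.ιMulti F n (fun i => (Pi.single (σ i) 1 : Fin n → F)) =
      ((Equiv.Perm.sign σ : ℤˣ) : ℤ) • top F n := by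
    have := AlternatingMap.map_perm (ExteriorAlgebra.ιMulti F n)
      (fun i => (Pi.single i 1 : Fin n → F)) σ
    exact this
  rw [h4, TensorProduct.smul_tmul]


abbrev B0 (n : ℕ) : Type := A ⊗[F] ExteriorAlgebra F (Fin n → F)

noncomputable def μ0 (n : ℕ) (a : A) (l : List (Fin n)) : B0 F A n := a ⊗ₜ[F] E F n l

lemma μ0_mul (n : ℕ) (a a' : A) (l l' : List (Fin n)) :
    μ0 F A n a l * μ0 F A n a' l' = (a * a') ⊗ₜ[F] (E F n l * E F n l') := by
  unfold μ0
  rw [Algebra.TensorProduct.tmul_mul_tmul]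

lemma sys0 (n : ℕ) (G : Type) [AddCommGroup G] [DecidableEq G] (𝒜 : G → Submodule F A) [GradedAlgebra 𝒜]
    (hcomm : ∀ a ∈ 𝒜 0, ∀ b ∈ 𝒜 0, a * b = b * a) :
    Sys (G := G) n (fun g => (𝒜 g : Set A)) (μ0 F A n) where
  gmul := fun g h a ha b hb => SetLike.GradedMul.mul_mem ha hb
  mul := fun a a' l l' => by
    rw [μ0_mul, μ0, E_append]
  long := fun a l hl => by
    rw [μ0, E_long F n l hl, TensorProduct.tmul_zero]
  swap := fun a ha a' ha' l l' => by
    rw [μ0_mul, μ0_mul, E_swap F n l l', hcomm a ha a' ha']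
    rcases Nat.even_or_odd (l.length * l'.length) with h | h
    · rw [h.neg_one_pow, h.neg_one_pow, one_mul, one_mul]
    · rw [h.neg_one_pow, h.neg_one_pow, neg_one_mul, neg_one_mul, TensorProduct.tmul_neg]
  sq := fun a l hl => by
    rw [μ0_mul, E_sq F n l hl, TensorProduct.tmul_zero]
  one_mem := SetLike.GradedOne.one_mem
  one := by
    rw [μ0, E_nil]; rfl

lemma charP_weight {B G : Type} [Ring B] (p : ℕ) [CharP B p] : CharP (AddMonoidAlgebra B (G → ℕ)) p := by
  refine ⟨fun k => ?_⟩
  rw [← CharP.cast_eq_zero_iff B p k]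
  have hk : (k : AddMonoidAlgebra B (G → ℕ)) = AddMonoidAlgebra.single 0 (k : B) := by
    induction k with
    | zero => simp
    | succ k ih => rw [Nat.cast_succ, ih, Nat.cast_succ, AddMonoidAlgebra.single_add, AddMonoidAlgebra.one_def]
  rw [hk, AddMonoidAlgebra.single_eq_zero]

lemma nilp0 (n p : ℕ) [Fact p.Prime] [CharP F p] (G : Type) [AddCommGroup G] [Fintype G] [DecidableEq G]
    (𝒜 : G → Submodule F A) [GradedAlgebra 𝒜]
    (hcomm : ∀ a ∈ 𝒜 0, ∀ b ∈ 𝒜 0, a * b = b * a) (hn : n = Fintype.card G * p) (x : Fin n → A) :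
    (∑ i, (x i) ⊗ₜ[F] (gen F n i)) ^ n = 0 := by
  have hX : ∀ g (c : G → ℕ), AddMonoidAlgebra.single c
      (∑ i, μ0 F A n ((DirectSum.decompose 𝒜 (x i) g : 𝒜 g) : A) [i]) ∈
        S (G := G) (fun g => (𝒜 g : Set A)) (μ0 F A n) g 1 := by
    intro g c
    have hc : AddMonoidAlgebra.single c
      (∑ i, μ0 F A n ((DirectSum.decompose 𝒜 (x i) g : 𝒜 g) : A) [i]) =
        ∑ i, mono (μ0 F A n) ((DirectSum.decompose 𝒜 (x i) g : 𝒜 g) : A) [i] c := by
      rw [← AddMonoidAlgebra.singleAddHom_apply, map_sum]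
      rfl
    rw [hc]
    apply AddSubgroup.sum_mem
    intro i _
    have hm : ((DirectSum.decompose 𝒜 (x i) g : 𝒜 g) : A) ∈ (𝒜 g : Set A) :=
      SetLike.coe_mem _
    have hl : 1 ≤ [i].length := le_refl _
    exact mono_mem_S (M := fun g => (𝒜 g : Set A)) (g := g) hm hl c
  have hsum : ∑ g, ∑ i, μ0 F A n ((DirectSum.decompose 𝒜 (x i) g : 𝒜 g) : A) [i] =
      ∑ i, (x i) ⊗ₜ[F] (gen F n i) := by
    rw [Finset.sum_comm]
    apply Finset.sum_congr rfl
    intro i _
    simp only [μ0]
    rw [← TensorProduct.sum_tmul]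
    have h1 : E F n [i] = gen F n i := by simp [E]
    rw [h1]
    congr 1
    classical
    conv_rhs => rw [← DirectSum.sum_support_decompose 𝒜 (x i)]
    symm
    apply Finset.sum_subset (Finset.subset_univ _)
    intro g _ hg
    simpa using hg
  rw [← hsum]
  rcases subsingleton_or_nontrivial (B0 F A n) with hB | hB
  · exact Subsingleton.elim _ _
  · have hc : CharP (B0 F A n) p := charP_of_injective_algebraMap (algebraMap F (B0 F A n)).injective p
    have hc' : CharP (AddMonoidAlgebra (B0 F A n) (G → ℕ)) p := charP_weight p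
    exact key2 (sys0 F A n G 𝒜 hcomm) _ hX hn

theorem main_theorem (p : ℕ) (hp : 0 < p) (hchar : CharP F p)
    (G : Type) [AddCommGroup G] [Fintype G] [DecidableEq G] (𝒜 : G → Submodule F A) [GradedAlgebra 𝒜]
    (hcomm : ∀ a ∈ 𝒜 0, ∀ b ∈ 𝒜 0, a * b = b * a)
    (x : Fin (Fintype.card G * p) → A) :
    ∑ σ : Equiv.Perm (Fin (Fintype.card G * p)),
          ((Equiv.Perm.sign σ : ℤˣ) : ℤ) • (List.ofFn (fun i => x (σ i))).prod = 0 := by
  have hpr : p.Prime := by
    rcases CharP.char_is_prime_or_zero F p with h | h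
    · exact h
    · omega
  have hf : Fact p.Prime := ⟨hpr⟩
  have hpow := nilp0 F A (Fintype.card G * p) p G 𝒜 hcomm rfl x
  rw [power_expand] at hpow
  have h5 := congrArg (TensorProduct.rid F A ∘ LinearMap.lTensor A (φ F _)) hpow
  simpa [φ_top] using h5

end Final
end Pool.Agent.Helper928.StdGraded
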