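import Pool.Agent.Helper928.AltSound
import Pool.Agent.Helper928.AltIdent
import Pool.Agent.Helper928.StdGraded
set_option autoImplicit false

namespace Pool.Agent.Helper928.AltEnv
open Pool.Agent.Helper928.AltSuper Pool.Agent.Helper928.AltData Pool.Agent.Helper928.AltSound
  Pool.Agent.Helper928.AltIdent Pool.Agent.Helper928.StdGraded

/-- the exterior algebra -/
abbrev Lam := ExteriorAlgebra ℚ (Fin 19 → ℚ)

/-- product of the generators along a list -/
noncomputable abbrev Ex (l : List (Fin 19)) : Lam := E ℚ 19 l

noncomputable def part (b : ℕ) : Submodule ℚ Lam :=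
  Submodule.span ℚ {u | ∃ l : List (Fin 19), l.length % 2 = b ∧ u = Ex l}

lemma Ex_mem (l : List (Fin 19)) : Ex l ∈ part (l.length % 2) :=
  Submodule.subset_span ⟨l, rfl, rfl⟩

lemma part_mul {a b : ℕ} {u v : Lam} (hu : u ∈ part a) (hv : v ∈ part b) : u * v ∈ part ((a + b) % 2) := by
  induction hu using Submodule.span_induction with
  | mem u hu =>
    obtain ⟨l, hl, rfl⟩ := hu
    induction hv using Submodule.span_induction with
    | mem v hv =>
      obtain ⟨l', hl', rfl⟩ := hv
      have h : Ex l * Ex l' = Ex (l ++ l') := (E_append ℚ 19 l l').symm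
      rw [h]
      have h2 := Ex_mem (l ++ l')
      have h3 : (l ++ l').length % 2 = (a + b) % 2 := by
        rw [List.length_append]; omega
      rwa [h3] at h2
    | zero => rw [mul_zero]; exact Submodule.zero_mem _
    | add x y _ _ hx hy => rw [mul_add]; exact Submodule.add_mem _ hx hy
    | smul r x _ hx => rw [mul_smul_comm]; exact Submodule.smul_mem _ _ hx
  | zero => rw [zero_mul]; exact Submodule.zero_mem _
  | add x y _ _ hx hy => rw [add_mul]; exact Submodule.add_mem _ hx hy
  | smul r x _ hx => rw [smul_mul_assoc]; exact Submodule.smul_mem _ _ hx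

lemma part_swap {a b : ℕ} {u v : Lam} (ha : a < 2) (hb : b < 2) (hu : u ∈ part a) (hv : v ∈ part b) :
    u * v = (if a * b = 1 then (-1 : ℤ) else 1) • (v * u) := by
  induction hu using Submodule.span_induction with
  | mem u hu =>
    obtain ⟨l, hl, rfl⟩ := hu
    induction hv using Submodule.span_induction with
    | mem v hv =>
      obtain ⟨l', hl', rfl⟩ := hv
      have h := E_swap ℚ 19 l l'
      rw [h]
      split_ifs with hab
      · have h1 : a = 1 := Nat.eq_one_of_mul_eq_one_right hab
        have h2 : b = 1 := Nat.eq_one_of_mul_eq_one_left hab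
        have : Odd (l.length * l'.length) :=
          (Nat.odd_iff.mpr (by omega)).mul (Nat.odd_iff.mpr (by omega))
        rw [this.neg_one_pow]; simp
      · have : Even (l.length * l'.length) := by
          rcases Nat.lt_or_ge 0 a with h1 | h1
          · rcases Nat.lt_or_ge 0 b with h2 | h2
            · have h3 : a = 1 := by omega
              have h4 : b = 1 := by omega
              rw [h3, h4] at hab
              exact absurd rfl hab
            · exact (Nat.even_iff.mpr (by omega)).mul_left _
          · exact (Nat.even_iff.mpr (by omega)).mul_right _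
        rw [this.neg_one_pow]; simp
    | zero => rw [mul_zero, zero_mul, smul_zero]
    | add x y _ _ hx hy => rw [mul_add, add_mul, smul_add, hx, hy]
    | smul r x _ hx => rw [mul_smul_comm, smul_mul_assoc, hx, smul_comm]
  | zero => rw [mul_zero, zero_mul, smul_zero]
  | add x y _ _ hx hy => rw [mul_add, add_mul, smul_add, hx, hy]
  | smul r x _ hx => rw [mul_smul_comm, smul_mul_assoc, hx, smul_comm]

noncomputable def G0 : SuperRing Lam where
  part := part
  mul_mem := part_mul
  swap := part_swap

/-- the ambient algebra -/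
def R : Type := Fin D0.N → Lam

namespace R
noncomputable instance : AddCommGroup R := inferInstanceAs (AddCommGroup (Fin D0.N → Lam))
noncomputable instance : Module ℚ R := inferInstanceAs (Module ℚ (Fin D0.N → Lam))
noncomputable instance : Mul R := ⟨fun v w => rmul D0 v w⟩

lemma mul_def (v w : R) : v * w = rmul D0 v w := rfl

noncomputable instance : NonUnitalNonAssocRing R where
  left_distrib := fun a b c => rmul_add a b c
  right_distrib := fun a b c => add_rmul a b c
  zero_mul := by
    intro a
    have h : rmul D0 ((0 : ℚ) • a) a = (0 : ℚ) • rmul D0 a a := smul_rmul 0 a a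
    rw [zero_smul] at h
    have h2 := smul_rmul (D := D0) (0 : ℚ) (0 : Fin D0.N → Lam) a
    rw [zero_smul, zero_smul] at h2
    exact h2
  mul_zero := by
    intro a
    have h2 := rmul_smul (D := D0) (0 : ℚ) a (0 : Fin D0.N → Lam)
    rw [zero_smul, zero_smul] at h2
    exact h2

instance : IsScalarTower ℚ R R := ⟨fun r a b => smul_rmul r a b⟩
instance : SMulCommClass ℚ R R := ⟨fun r a b => (rmul_smul r a b).symm⟩
end R

/-- the Grassmann envelope as a subalgebra -/
noncomputable def BS : NonUnitalSubalgebra ℚ R where
  carrier := {v | v ∈ env G0 D0}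
  add_mem' := fun ha hb => (env G0 D0).add_mem ha hb
  zero_mem' := (env G0 D0).zero_mem
  mul_mem' := fun ha hb => rmul_mem G0 good ha hb
  smul_mem' := fun r _ ha => (env G0 D0).smul_mem r ha

lemma BS_alt (x y : BS) : (x * x) * y = x * (x * y) ∧ (y * x) * x = y * (x * x) := by
  constructor
  · apply Subtype.ext
    funext l
    exact left_alt G0 good (x.2) l
  · apply Subtype.ext
    funext l
    exact right_alt G0 good (x.2) l

/-- sparse tensors -/
noncomputable def tl (L : List (ℕ × ℤ)) (u : Lam) : R := fun k => coef k L • u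

/-- product of sparse vectors -/
noncomputable def mulL (L L' : List (ℕ × ℤ)) : List (ℕ × ℤ) :=
  bindL L (fun i => bindL L' (fun j => T i j))

/-- keys are indices -/
def Ok (L : List (ℕ × ℤ)) : Prop := ∀ p ∈ L, p.1 < 74

lemma coef_bindL_sum {L : List (ℕ × ℤ)} (hL : Ok L) (f : ℕ → List (ℕ × ℤ)) (k : ℕ) :
    coef k (bindL L f) = ∑ i : Fin 74, coef i L * coef k (f i) := by
  rw [coef_bindL, ← sum_coef (N := 74) L hL (fun i => coef k (f i))]
  simp only [smul_eq_mul]

lemma tl_mul {L L' : List (ℕ × ℤ)} (hL : Ok L) (hL' : Ok L') (u v : Lam) :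
    tl L u * tl L' v = tl (mulL L L') (u * v) := by
  rw [R.mul_def]
  funext k
  show ∑ i : Fin 74, ∑ j : Fin 74, D0.c i j k • ((coef i L • u) * (coef j L' • v)) = coef k (mulL L L') • (u * v)
  have h2 : ∀ i j : Fin 74, D0.c i j k • ((coef i L • u) * (coef j L' • v)) =
      (coef i L * (coef j L' * coef k (T i j))) • (u * v) := by
    intro i j
    rw [smul_mul_assoc, mul_smul_comm, smul_smul, smul_smul]
    congr 1
    show coef k (T i j) * coef i L * coef j L' = _
    ring
  simp only [h2]
  unfold mulL
  rw [coef_bindL_sum hL, Finset.sum_smul]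
  refine Finset.sum_congr rfl fun i _ => ?_
  rw [coef_bindL_sum hL', Finset.mul_sum, Finset.sum_smul]

lemma tl_congr {L L' : List (ℕ × ℤ)} (h : ∀ k < 74, coef k L = coef k L') (u : Lam) : tl L u = tl L' u := by
  funext k
  show coef k L • u = coef k L' • u
  rw [h k k.2]

lemma tl_add (L L' : List (ℕ × ℤ)) (u : Lam) : tl L u + tl L' u = tl (L ++ L') u := by
  funext k
  show coef k L • u + coef k L' • u = coef k (L ++ L') • u
  rw [coef_append, add_smul]

lemma tl_neg (L : List (ℕ × ℤ)) (u : Lam) : tl L (-u) = tl (smulL (-1) L) u := by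
  funext k
  show coef k L • (-u) = coef k (smulL (-1) L) • u
  rw [coef_smulL]
  simp

lemma tl_sub (L L' : List (ℕ × ℤ)) (u : Lam) : tl L u - tl L' u = tl (L ++ smulL (-1) L') u := by
  funext k
  show coef k L • u - coef k L' • u = coef k (L ++ smulL (-1) L') • u
  rw [coef_append, coef_smulL, add_smul, sub_eq_add_neg]
  simp

lemma tl_smul (a : ℤ) (L : List (ℕ × ℤ)) (u : Lam) : tl L (a • u) = a • tl L u := by
  funext k
  show coef k L • (a • u) = a • (coef k L • u)
  rw [smul_comm]

end Pool.Agent.Helper928.AltEnv
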