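import Pool.Agent.Helper928.AltEnv
set_option autoImplicit false

namespace Pool.Agent.Helper928.AltFinal
open Pool.Agent.Helper928.AltSuper Pool.Agent.Helper928.AltData Pool.Agent.Helper928.AltSound
  Pool.Agent.Helper928.AltIdent Pool.Agent.Helper928.StdGraded Pool.Agent.Helper928.AltEnv

/-- equality of sparse vectors -/
noncomputable def eqv (L L' : List (ℕ × ℤ)) : Bool := zeroAux 16 (L ++ smulL (-1) L')

lemma eqv_ok {L L' : List (ℕ × ℤ)} (h : eqv L L' = true) (k : ℕ) : coef k L = coef k L' := by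
  have h1 := zeroAux_ok _ _ h k
  rw [coef_append, coef_smulL] at h1
  linarith

def X : List (ℕ × ℤ) := [(0, 1)]
def P2 : List (ℕ × ℤ) := [(1, 168)]
def Q2 : List (ℕ × ℤ) := [(1, 336)]
def R4 : List (ℕ × ℤ) := [(4, 75866112)]
def F5 : List (ℕ × ℤ) := [(9, 50982027264)]
def H8 : List (ℕ × ℤ) := [(28, 10152996499793903616), (29, -8460830416494919680), (32, 18049771555189161984), (33, 40611985999175614464)]
def FH : List (ℕ × ℤ) := [(58, 12422888264730944748765604478976), (59, 28986739284372204413786410450944), (60, 86960217853116613241359231352832), (61, 74882409817961528068948226998272)]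

/-- left powers -/
def Hs : ℕ → List (ℕ × ℤ)
  | 0 => [(0, 1)]
  | 1 => [(1, 168)]
  | 2 => [(2, 56448)]
  | 3 => [(4, 9483264), (5, 6322176)]
  | 4 => [(7, 3186376704), (10, 2124251136)]
  | 5 => [(11, 535311286272), (12, 237916127232), (13, 1070622572544)]
  | 6 => [(16, 179864592187392), (17, -29977432031232), (20, 79939818749952), (21, 359729184374784)]
  | 7 => [(22, 30217251487481856), (23, 53719558199967744), (24, 120869005949927424), (25, -10072417162493952)]
  | _ => [(28, 10152996499793903616), (29, -8460830416494919680), (32, 18049771555189161984), (33, 40611985999175614464)]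

lemma okX : Ok X := by unfold Ok; decide +kernel
lemma okP2 : Ok P2 := by unfold Ok; decide +kernel
lemma okQ2 : Ok Q2 := by unfold Ok; decide +kernel
lemma okR4 : Ok R4 := by unfold Ok; decide +kernel
lemma okF5 : Ok F5 := by unfold Ok; decide +kernel
lemma okFH : Ok FH := by unfold Ok; decide +kernel
lemma okHs : ∀ n ≤ 8, Ok (Hs n) := by unfold Ok; decide +kernel

lemma mul_XX (k : ℕ) : coef k (mulL X X) = coef k P2 := eqv_ok (by decide +kernel) k
lemma eq_Q2 (k : ℕ) : coef k (P2 ++ P2) = coef k Q2 := eqv_ok (by decide +kernel) k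
lemma mul_QQ (k : ℕ) : coef k (mulL Q2 Q2 ++ mulL Q2 Q2) = coef k R4 := eqv_ok (by decide +kernel) k
lemma mul_RX (k : ℕ) : coef k (mulL R4 X ++ smulL (-1) (mulL X R4)) = coef k F5 := eqv_ok (by decide +kernel) k
lemma mul_HX : ∀ n < 8, eqv (mulL (Hs n) X) (Hs (n + 1)) = true := by decide +kernel
lemma mul_FF (k : ℕ) : coef k (mulL F5 F5) = coef k [] := eqv_ok (by decide +kernel) k
lemma mul_FH (k : ℕ) : coef k (mulL F5 (Hs 8)) = coef k FH := eqv_ok (by decide +kernel) k
lemma mul_FFH : coef 73 (mulL F5 FH) = 248270859058374360523969905733897219146252288 := by decide +kernel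

lemma Ex_append (l l' : List (Fin 19)) : Ex (l ++ l') = Ex l * Ex l' := E_append ℚ 19 l l'

lemma Ex_swap_even (l l' : List (Fin 19)) (h : Even (l.length * l'.length)) : Ex l * Ex l' = Ex l' * Ex l := by
  have := E_swap ℚ 19 l l'
  rw [h.neg_one_pow, one_mul] at this
  exact this

lemma Ex_swap_odd (l l' : List (Fin 19)) (h : Odd (l.length * l'.length)) : Ex l * Ex l' = - (Ex l' * Ex l) := by
  have := E_swap ℚ 19 l l'
  rw [h.neg_one_pow, neg_one_mul] at this
  exact this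

lemma comm_eq (a b : Fin 19) :
    tl X (Ex [a]) * tl X (Ex [b]) - tl X (Ex [b]) * tl X (Ex [a]) = tl Q2 (Ex [a, b]) := by
  rw [tl_mul okX okX, tl_mul okX okX]
  have h1 : Ex [b] * Ex [a] = - (Ex [a] * Ex [b]) := Ex_swap_odd _ _ (show Odd (1 * 1) by decide)
  have h2 : Ex [a] * Ex [b] = Ex [a, b] := (Ex_append [a] [b]).symm
  rw [h1, h2, tl_congr (fun k _ => mul_XX k), tl_congr (fun k _ => mul_XX k)]
  have h3 : tl P2 (-Ex [a, b]) = - tl P2 (Ex [a, b]) := by
    funext k
    show coef k P2 • (-Ex [a, b]) = -(coef k P2 • Ex [a, b])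
    rw [smul_neg]
  rw [h3, sub_neg_eq_add, tl_add, tl_congr (fun k _ => eq_Q2 k)]

lemma jord_eq (l l' : List (Fin 19)) (hl : l.length = 2) :
    tl Q2 (Ex l) * tl Q2 (Ex l') + tl Q2 (Ex l') * tl Q2 (Ex l) = tl R4 (Ex (l ++ l')) := by
  rw [tl_mul okQ2 okQ2, tl_mul okQ2 okQ2]
  have h1 : Ex l' * Ex l = Ex l * Ex l' := Ex_swap_even _ _ (by rw [hl]; exact even_two.mul_left _)
  rw [h1, tl_add, tl_congr (fun k _ => mul_QQ k), Ex_append]

lemma last_eq (l : List (Fin 19)) (a : Fin 19) (hl : l.length = 4) :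
    tl R4 (Ex l) * tl X (Ex [a]) - tl X (Ex [a]) * tl R4 (Ex l) = tl F5 (Ex (l ++ [a])) := by
  rw [tl_mul okR4 okX, tl_mul okX okR4]
  have h1 : Ex [a] * Ex l = Ex l * Ex [a] := Ex_swap_even _ _ (by rw [hl]; exact (by decide : Even (1 * 4)))
  rw [h1, tl_sub, tl_congr (fun k _ => mul_RX k), Ex_append]

lemma fE_eval (a : Fin 5 → Fin 19) :
    fE (fun i => tl X (Ex [a i])) = tl F5 (Ex [a 0, a 1, a 2, a 3, a 4]) := by
  unfold fE
  simp only [comm_eq]
  rw [jord_eq _ _ rfl, last_eq _ _ rfl]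
  rfl

lemma Ex_ofFn (m : ℕ) (r : Fin m → Fin 19) :
    Ex (List.ofFn r) = ExteriorAlgebra.ιMulti ℚ m (fun i => (Pi.single (r i) 1 : Fin 19 → ℚ)) := by
  rw [ExteriorAlgebra.ιMulti_apply]
  show E ℚ 19 _ = _
  unfold E
  rw [List.map_ofFn]
  rfl

lemma lw_eval (n : ℕ) (hn : n ≤ 8) (s : Fin (n + 1) → Fin 19) :
    lw R n (fun i => tl X (Ex [s i])) = tl (Hs n) (Ex (List.ofFn s)) := by
  induction n with
  | zero =>
    rw [lw_zero]
    have : List.ofFn s = [s 0] := by simp
    rw [this]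
    rfl
  | succ n ih =>
    rw [lw_succ]
    have h1 := ih (by omega) (Fin.init s)
    have h2 : (Fin.init fun i => tl X (Ex [s i])) = fun i => tl X (Ex [(Fin.init s : Fin (n + 1) → Fin 19) i]) := rfl
    rw [h2, h1, tl_mul (okHs n (by omega)) okX, ← Ex_append]
    have h3 : List.ofFn (Fin.init s : Fin (n + 1) → Fin 19) ++ [s (Fin.last (n + 1))] = List.ofFn s := by
      rw [List.ofFn_succ' (f := s), List.concat_eq_append]
      rfl
    rw [h3]
    exact tl_congr (fun k _ => eqv_ok (mul_HX n (by omega)) k) _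

lemma Ex_perm (m : ℕ) (r : Fin m → Fin 19) (σ : Equiv.Perm (Fin m)) :
    Ex (List.ofFn (fun i => r (σ i))) = ((Equiv.Perm.sign σ : ℤˣ) : ℤ) • Ex (List.ofFn r) := by
  rw [Ex_ofFn, Ex_ofFn]
  exact AlternatingMap.map_perm (ExteriorAlgebra.ιMulti ℚ m) (fun i => (Pi.single (r i) 1 : Fin 19 → ℚ)) σ

lemma hE_eval (b : Fin 9 → Fin 19) :
    hE (fun i => tl X (Ex [b i])) = (Nat.factorial 9 : ℤ) • tl (Hs 8) (Ex (List.ofFn b)) := by
  unfold hE
  have h1 : ∀ σ : Equiv.Perm (Fin 9), ((Equiv.Perm.sign σ : ℤˣ) : ℤ) • lw R 8 (fun i => tl X (Ex [b (σ i)])) =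
      tl (Hs 8) (Ex (List.ofFn b)) := by
    intro σ
    rw [lw_eval 8 le_rfl (fun i => b (σ i)), Ex_perm, tl_smul, smul_smul]
    have : ((Equiv.Perm.sign σ : ℤˣ) : ℤ) * ((Equiv.Perm.sign σ : ℤˣ) : ℤ) = 1 := by
      rw [← Units.val_mul, Int.units_mul_self]; rfl
    rw [this, one_smul]
  rw [Finset.sum_congr rfl (fun σ _ => h1 σ), Finset.sum_const, Finset.card_univ, Fintype.card_perm,
    Fintype.card_fin, natCast_zsmul]

lemma par0 : D0.par 0 = 1 := by decide +kernel

lemma one_part (i : Fin 19) : Ex [i] ∈ part 1 := Submodule.subset_span ⟨[i], rfl, rfl⟩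

lemma X_mem (i : Fin 19) : tl X (Ex [i]) ∈ BS := by
  intro k
  by_cases hk : (0 : ℕ) = k
  · have h1 : D0.par k = 1 := by
      rw [← hk]; exact par0
    have h2 : coef k X • Ex [i] ∈ part 1 := by
      rw [← Int.cast_smul_eq_zsmul ℚ]
      exact Submodule.smul_mem _ _ (one_part i)
    show coef k X • Ex [i] ∈ part (D0.par k)
    rw [h1]
    exact h2
  · have h1 : coef k X = 0 := by
      show (if (0 : ℕ) = k then (1 : ℤ) else 0) + 0 = 0
      rw [if_neg hk]
      rfl
    show coef k X • Ex [i] ∈ part (D0.par k)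
    rw [h1, zero_smul]
    exact Submodule.zero_mem _

/-- the generic element -/
noncomputable def ph (n : ℕ) : BS :=
  if h : n < 19 then ⟨tl X (Ex [⟨n, h⟩]), X_mem _⟩ else 0

lemma ph_coe (n : ℕ) (h : n < 19) : ((ph n : BS) : R) = tl X (Ex [⟨n, h⟩]) := by
  unfold ph
  rw [dif_pos h]

end Pool.Agent.Helper928.AltFinal
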