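import Pool.Agent.Helper928.AltData
set_option autoImplicit false

namespace Pool.Agent.Helper928.AltSound
open Pool.Agent.Helper928.AltSuper Pool.Agent.Helper928.AltData

theorem chkGrade_ok : chkGrade = true := by decide +kernel
theorem chkL_ok : chkL = true := by decide +kernel
theorem chkR_ok : chkR = true := by decide +kernel

lemma coef_axpy (l : ℕ) (a : ℤ) (M tail : List (ℕ × ℤ)) :
    coef l (axpy a M tail) = a * coef l M + coef l tail := by
  induction M with
  | nil => simp [axpy, coef]
  | cons q M ih =>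
    have h : axpy a (q :: M) tail = (q.1, Int.mul a q.2) :: axpy a M tail := rfl
    rw [h, coef, coef, ih]
    have h2 : Int.mul a q.2 = a * q.2 := rfl
    simp only [h2]
    split_ifs <;> ring

lemma coef_bindR (l : ℕ) (a : ℤ) (f : ℕ → List (ℕ × ℤ)) (L tail : List (ℕ × ℤ)) :
    coef l (bindR a f L tail) = a * coef l (bindL L f) + coef l tail := by
  induction L with
  | nil => simp [bindR, bindL, coef]
  | cons q L ih =>
    have h : bindR a f (q :: L) tail = axpy (Int.mul a q.2) (f q.1) (bindR a f L tail) := rfl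
    have h3 : bindL (q :: L) f = smulL q.2 (f q.1) ++ bindL L f := by simp [bindL]
    rw [h, coef_axpy, ih, h3, coef_append, coef_smulL]
    have h2 : Int.mul a q.2 = a * q.2 := rfl
    rw [h2]
    ring

lemma coef_AR (l i j k : ℕ) (a : ℤ) (tail : List (ℕ × ℤ)) :
    coef l (AR i j k a tail) = a * coef l (D0.A i j k) + coef l tail := by
  unfold AR Data.A
  rw [coef_bindR, coef_bindR, coef_append, coef_smulL]
  have h2 : Int.neg a = - a := rfl
  rw [h2]
  show a * coef l (bindL (T i j) fun m => T m k) + (-a * coef l (bindL (T j k) fun m => T i m) + coef l tail) =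
    a * (coef l (bindL (T i j) fun m => T m k) + -1 * coef l (bindL (T j k) fun m => T i m)) + coef l tail
  ring

lemma ksum_eq (k : ℕ) (L : List (ℕ × ℤ)) : ksum k L = coef k L := by
  induction L with
  | nil => rfl
  | cons q L ih =>
    have h : ksum k (q :: L) = cond (Nat.beq q.1 k) (Int.add q.2 (ksum k L)) (ksum k L) := rfl
    rw [h, coef, ih]
    by_cases hq : q.1 = k
    · subst hq
      simp only [Nat.beq_refl, cond_true, if_true]
      rfl
    · have : Nat.beq q.1 k = false := by
        rw [← Bool.not_eq_true, Nat.beq_eq]; exact hq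
      rw [this]
      simp [hq]

lemma coef_krem (k l : ℕ) (L : List (ℕ × ℤ)) : coef l (krem k L) = if l = k then 0 else coef l L := by
  induction L with
  | nil => simp [krem, coef]
  | cons q L ih =>
    have h : krem k (q :: L) = cond (Nat.beq q.1 k) (krem k L) (q :: krem k L) := rfl
    rw [h]
    by_cases hq : q.1 = k
    · subst hq
      simp only [Nat.beq_refl, cond_true, ih, coef]
      by_cases hl : l = q.1
      · simp [hl]
      · have : ¬ (q.1 = l) := fun h => hl h.symm
        simp [hl, this]
    · have : Nat.beq q.1 k = false := by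
        rw [← Bool.not_eq_true, Nat.beq_eq]; exact hq
      rw [this]
      simp only [cond_false, coef, ih]
      by_cases hl : l = k
      · subst hl; simp [hq]
      · simp [hl]

lemma isz_eq {z : ℤ} (h : isz z = true) : z = 0 := by
  cases z with
  | ofNat n =>
    have h1 : isz (Int.ofNat n) = Nat.beq n 0 := rfl
    rw [h1, Nat.beq_eq] at h
    subst h
    rfl
  | negSucc n =>
    have h1 : isz (Int.negSucc n) = false := rfl
    rw [h1] at h
    exact absurd h (by simp)

lemma zeroAux_ok (n : ℕ) : ∀ L : List (ℕ × ℤ), zeroAux n L = true → ∀ k, coef k L = 0 := by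
  induction n with
  | zero =>
    intro L h k
    cases L with
    | nil => rfl
    | cons q L =>
      have h1 : zeroAux 0 (q :: L) = false := rfl
      rw [h1] at h
      exact absurd h (by simp)
  | succ n ih =>
    intro L h k
    cases L with
    | nil => rfl
    | cons q M =>
      have h1 : zeroAux (n + 1) (q :: M) = cond (isz (Int.add q.2 (ksum q.1 M))) (zeroAux n (krem q.1 M)) false := rfl
      rw [h1] at h
      have h2 : isz (Int.add q.2 (ksum q.1 M)) = true := by
        by_contra hc
        rw [Bool.not_eq_true] at hc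
        rw [hc] at h
        exact absurd h (by simp)
      rw [h2, cond_true] at h
      have h3 := isz_eq h2
      rw [ksum_eq] at h3
      have h3' : q.2 + coef q.1 M = 0 := h3
      have h4 := ih _ h k
      rw [coef_krem] at h4
      rw [coef]
      by_cases hk : q.1 = k
      · subst hk
        simpa using h3'
      · rw [if_neg (fun h => hk h.symm)] at h4
        simp [hk, h4]

lemma mem_idxs : ∀ i < 74, (i, dg i) ∈ idxs := by decide +kernel

lemma dg_pos : ∀ i < 74, 0 < dg i := by decide +kernel

lemma sgd_comm (a b : ℕ) : sgd a b = sgd b a := by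
  unfold sgd; rw [Nat.mul_comm]

lemma sgd_sq (a b : ℕ) : sgd a b * sgd a b = 1 := by
  unfold sgd
  cases Nat.beq (a % 2 * (b % 2)) 1 <;> rfl

lemma sg_eq (i j : ℕ) : D0.sg i j = sgd (dg i) (dg j) := by
  unfold Data.sg sgd
  show (if dg i % 2 * (dg j % 2) = 1 then (-1 : ℤ) else 1) = _
  by_cases h : dg i % 2 * (dg j % 2) = 1
  · rw [if_pos h]
    have : Nat.beq (dg i % 2 * (dg j % 2)) 1 = true := by rw [Nat.beq_eq]; exact h
    rw [this]; rfl
  · rw [if_neg h]
    have : Nat.beq (dg i % 2 * (dg j % 2)) 1 = false := by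
      rw [← Bool.not_eq_true, Nat.beq_eq]; exact h
    rw [this]; rfl

lemma grade {i j : ℕ} (hi : i < 74) (hj : j < 74) {p : ℕ × ℤ} (hp : p ∈ T i j) :
    p.1 < 74 ∧ dg p.1 = dg i + dg j := by
  have h := chkGrade_ok
  unfold chkGrade at h
  rw [List.all_eq_true] at h
  have h1 := h _ (mem_idxs i hi)
  rw [List.all_eq_true] at h1
  have h2 := h1 _ (mem_idxs j hj)
  rw [List.all_eq_true] at h2
  have h3 := h2 p hp
  rw [Bool.and_eq_true, Nat.blt_eq, Nat.beq_eq] at h3
  exact h3

lemma dg_le {i : ℕ} (hi : i < 74) : dg i ≤ 19 := by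
  have : ∀ i < 74, dg i ≤ 19 := by decide +kernel
  exact this i hi

lemma T_nil {i j : ℕ} (hi : i < 74) (hj : j < 74) (h : 19 < dg i + dg j) : T i j = [] := by
  rw [List.eq_nil_iff_forall_not_mem]
  intro p hp
  obtain ⟨h1, h2⟩ := grade hi hj hp
  have := dg_le h1
  omega

lemma coef_bindL_zero {i j k : ℕ} (hi : i < 74) (hj : j < 74) (hk : k < 74)
    (h : 19 < dg i + dg j + dg k) (l : ℕ) : coef l (bindL (T i j) fun m => T m k) = 0 := by
  rw [coef_bindL]
  apply List.sum_eq_zero
  intro z hz
  rw [List.mem_map] at hz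
  obtain ⟨p, hp, rfl⟩ := hz
  obtain ⟨h1, h2⟩ := grade hi hj hp
  rw [T_nil h1 hk (by omega)]
  simp [coef]

lemma coef_bindL_zero' {i j k : ℕ} (hi : i < 74) (hj : j < 74) (hk : k < 74)
    (h : 19 < dg i + dg j + dg k) (l : ℕ) : coef l (bindL (T j k) fun m => T i m) = 0 := by
  rw [coef_bindL]
  apply List.sum_eq_zero
  intro z hz
  rw [List.mem_map] at hz
  obtain ⟨p, hp, rfl⟩ := hz
  obtain ⟨h1, h2⟩ := grade hj hk hp
  rw [T_nil hi h1 (by omega)]
  simp [coef]

lemma coef_A_zero {i j k : ℕ} (hi : i < 74) (hj : j < 74) (hk : k < 74)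
    (h : 19 < dg i + dg j + dg k) (l : ℕ) : coef l (D0.A i j k) = 0 := by
  unfold Data.A
  rw [coef_append, coef_smulL]
  have h1 := coef_bindL_zero hi hj hk h l
  have h2 := coef_bindL_zero' hi hj hk h l
  show coef l (bindL (T i j) fun m => T m k) + -1 * coef l (bindL (T j k) fun m => T i m) = 0
  rw [h1, h2]
  rfl

lemma cond_true_or {b : Bool} {c : Bool} (h : cond b true c = true) : b = true ∨ c = true := by
  cases b
  · right; exact h
  · left; rfl

lemma left_le {i j k : ℕ} (hi : i < 74) (hj : j < 74) (hk : k < 74) (hij : i ≤ j) (l : ℕ) :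
    coef l (D0.A i j k) + D0.sg i j * coef l (D0.A j i k) = 0 := by
  by_cases hd : 19 < dg i + dg j + dg k
  · rw [coef_A_zero hi hj hk hd, coef_A_zero hj hi hk (by omega)]
    simp
  have h := chkL_ok
  unfold chkL at h
  rw [List.all_eq_true] at h
  have h1 := h _ (mem_idxs i hi)
  rw [List.all_eq_true] at h1
  have h2 := h1 _ (mem_idxs j hj)
  rcases cond_true_or h2 with h3 | h3
  · rw [Nat.blt_eq] at h3
    exact absurd h3 (by simpa using hij)
  rcases cond_true_or h3 with h4 | h4
  · rw [Nat.blt_eq] at h4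
    exact absurd h4 (by simp only; omega)
  rw [List.all_eq_true] at h4
  have h5 := h4 _ (mem_idxs k hk)
  rcases cond_true_or h5 with h6 | h6
  · rw [Nat.blt_eq] at h6
    exact absurd h6 hd
  have h7 := zeroAux_ok _ _ h6 l
  rw [coef_AR, coef_AR] at h7
  rw [sg_eq]
  simpa [coef] using h7

lemma right_le {i j k : ℕ} (hi : i < 74) (hj : j < 74) (hk : k < 74) (hjk : j ≤ k) (l : ℕ) :
    coef l (D0.A i j k) + D0.sg j k * coef l (D0.A i k j) = 0 := by
  by_cases hd : 19 < dg i + dg j + dg k
  · rw [coef_A_zero hi hj hk hd, coef_A_zero hi hk hj (by omega)]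
    simp
  have h := chkR_ok
  unfold chkR at h
  rw [List.all_eq_true] at h
  have h1 := h _ (mem_idxs i hi)
  rw [List.all_eq_true] at h1
  have h2 := h1 _ (mem_idxs j hj)
  rcases cond_true_or h2 with h4 | h4
  · rw [Nat.blt_eq] at h4
    exact absurd h4 (by simp only; omega)
  rw [List.all_eq_true] at h4
  have h5 := h4 _ (mem_idxs k hk)
  rcases cond_true_or h5 with h3 | h5
  · rw [Nat.blt_eq] at h3
    exact absurd h3 (by simpa using hjk)
  rcases cond_true_or h5 with h6 | h6
  · rw [Nat.blt_eq] at h6
    exact absurd h6 hd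
  have h7 := zeroAux_ok _ _ h6 l
  rw [coef_AR, coef_AR] at h7
  rw [sg_eq]
  simpa [coef] using h7

lemma sg_comm (i j : ℕ) : D0.sg i j = D0.sg j i := by
  rw [sg_eq, sg_eq, sgd_comm]

lemma sg_sq (i j : ℕ) : D0.sg i j * D0.sg i j = 1 := by
  rw [sg_eq, sgd_sq]

theorem good : D0.Good where
  lt := fun i hi j hj p hp => (grade hi hj hp).1
  par_le := fun i _ => Nat.mod_lt _ (by norm_num)
  par_add := by
    intro i hi j hj p hp
    have h := (grade hi hj hp).2
    show dg p.1 % 2 = (dg i % 2 + dg j % 2) % 2
    rw [h]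
    omega
  left := by
    intro i hi j hj k hk l
    rcases le_total i j with h | h
    · exact left_le hi hj hk h l
    · have h1 := left_le hj hi hk h l
      have h2 := sg_sq i j
      rw [sg_comm j i] at h1
      linear_combination D0.sg i j * h1 - coef l (D0.A i j k) * (h2)
  right := by
    intro i hi j hj k hk l
    rcases le_total j k with h | h
    · exact right_le hi hj hk h l
    · have h1 := right_le hi hk hj h l
      have h2 := sg_sq j k
      rw [sg_comm k j] at h1
      linear_combination D0.sg j k * h1 - coef l (D0.A i j k) * (h2)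

end Pool.Agent.Helper928.AltSound
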