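import Mathlib
set_option autoImplicit false

namespace Pool.Agent.Helper928.AltSuper

/-- coefficient of k in a sparse vector -/
def coef (k : ℕ) : List (ℕ × ℤ) → ℤ
  | [] => 0
  | p :: L => (if p.1 = k then p.2 else 0) + coef k L

def smulL (a : ℤ) (L : List (ℕ × ℤ)) : List (ℕ × ℤ) := L.map (fun p => (p.1, a * p.2))

lemma coef_append (k : ℕ) (L L' : List (ℕ × ℤ)) : coef k (L ++ L') = coef k L + coef k L' := by
  induction L with
  | nil => simp [coef]
  | cons p L ih => simp [coef, ih, add_assoc]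

lemma coef_smulL (k : ℕ) (a : ℤ) (L : List (ℕ × ℤ)) : coef k (smulL a L) = a * coef k L := by
  induction L with
  | nil => simp [coef, smulL]
  | cons p L ih =>
    simp only [smulL, List.map_cons, coef] at ih ⊢
    rw [ih, mul_add]
    split_ifs <;> simp

/-- all coefficients vanish -/
def isZero (L : List (ℕ × ℤ)) : Bool := L.all (fun p => decide (coef p.1 L = 0))

lemma coef_eq_zero_of_notMem (k : ℕ) (L : List (ℕ × ℤ)) (h : ∀ p ∈ L, p.1 ≠ k) : coef k L = 0 := by
  induction L with
  | nil => rfl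
  | cons p L ih =>
    simp only [coef]
    rw [if_neg (h p (by simp)), ih (fun q hq => h q (by simp [hq]))]
    rfl

lemma isZero_spec {L : List (ℕ × ℤ)} (h : isZero L = true) (k : ℕ) : coef k L = 0 := by
  by_cases hk : ∃ p ∈ L, p.1 = k
  · obtain ⟨p, hp, rfl⟩ := hk
    unfold isZero at h
    rw [List.all_eq_true] at h
    simpa using h p hp
  · push Not at hk
    exact coef_eq_zero_of_notMem k L hk

lemma sum_coef {N : ℕ} {W : Type*} [AddCommGroup W] (L : List (ℕ × ℤ)) (hL : ∀ p ∈ L, p.1 < N) (g : ℕ → W) :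
    ∑ m : Fin N, coef m L • g m = (L.map (fun p => p.2 • g p.1)).sum := by
  induction L with
  | nil => simp [coef]
  | cons p L ih =>
    simp only [coef, add_smul, Finset.sum_add_distrib, List.map_cons, List.sum_cons]
    rw [ih (fun q hq => hL q (by simp [hq]))]
    congr 1
    have hp : p.1 < N := hL p (by simp)
    rw [Finset.sum_eq_single (⟨p.1, hp⟩ : Fin N)]
    · simp
    · intro b _ hb
      rw [if_neg, zero_smul]
      intro h
      apply hb
      ext
      exact h.symm
    · intro h; exact absurd (Finset.mem_univ _) h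

/-- product of a sparse vector with a basis vector on the right, and so on -/
def bindL (L : List (ℕ × ℤ)) (f : ℕ → List (ℕ × ℤ)) : List (ℕ × ℤ) :=
  L.flatMap (fun p => smulL p.2 (f p.1))

lemma coef_bindL (k : ℕ) (L : List (ℕ × ℤ)) (f : ℕ → List (ℕ × ℤ)) :
    coef k (bindL L f) = (L.map (fun p => p.2 • coef k (f p.1))).sum := by
  induction L with
  | nil => simp [bindL, coef]
  | cons p L ih =>
    have : bindL (p :: L) f = smulL p.2 (f p.1) ++ bindL L f := by simp [bindL]
    rw [this, coef_append, coef_smulL, ih]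
    simp

/-- data of a finite superalgebra given by a table -/
structure Data where
  N : ℕ
  T : ℕ → ℕ → List (ℕ × ℤ)
  par : ℕ → ℕ

namespace Data
variable (D : Data)

/-- structure constants -/
def c (i j k : ℕ) : ℤ := coef k (D.T i j)

def sg (i j : ℕ) : ℤ := if D.par i * D.par j = 1 then -1 else 1

/-- associator of basis vectors as a sparse list -/
def A (i j k : ℕ) : List (ℕ × ℤ) :=
  bindL (D.T i j) (fun m => D.T m k) ++ smulL (-1) (bindL (D.T j k) (fun m => D.T i m))

structure Good : Prop where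
  lt : ∀ i < D.N, ∀ j < D.N, ∀ p ∈ D.T i j, p.1 < D.N
  par_le : ∀ i < D.N, D.par i < 2
  par_add : ∀ i < D.N, ∀ j < D.N, ∀ p ∈ D.T i j, D.par p.1 = (D.par i + D.par j) % 2
  left : ∀ i < D.N, ∀ j < D.N, ∀ k < D.N, ∀ l, coef l (D.A i j k) + D.sg i j * coef l (D.A j i k) = 0
  right : ∀ i < D.N, ∀ j < D.N, ∀ k < D.N, ∀ l, coef l (D.A i j k) + D.sg j k * coef l (D.A i k j) = 0

variable {D}

lemma coef_A (hD : D.Good) {i j k : ℕ} (hi : i < D.N) (hj : j < D.N) (hk : k < D.N) (l : ℕ) :
    coef l (D.A i j k) = (∑ m : Fin D.N, D.c i j m * D.c m k l) - ∑ m : Fin D.N, D.c j k m * D.c i m l := by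
  unfold A
  rw [coef_append, coef_smulL, coef_bindL, coef_bindL,
    ← sum_coef (N := D.N) (D.T i j) (hD.lt i hi j hj) (fun m => coef l (D.T m k)),
    ← sum_coef (N := D.N) (D.T j k) (hD.lt j hj k hk) (fun m => coef l (D.T i m))]
  simp only [smul_eq_mul, c]
  ring

end Data

section Envelope

/-- a ring with even and odd parts that commute up to sign -/
structure SuperRing (Λ : Type) [Ring Λ] [Algebra ℚ Λ] where
  part : ℕ → Submodule ℚ Λ
  mul_mem : ∀ {a b : ℕ} {u v : Λ}, u ∈ part a → v ∈ part b → u * v ∈ part ((a + b) % 2)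
  swap : ∀ {a b : ℕ} {u v : Λ}, a < 2 → b < 2 → u ∈ part a → v ∈ part b →
    u * v = (if a * b = 1 then (-1 : ℤ) else 1) • (v * u)

variable {Λ : Type} [Ring Λ] [Algebra ℚ Λ] (G : SuperRing Λ) (D : Data)

/-- raw product -/
noncomputable def rmul (v w : Fin D.N → Λ) : Fin D.N → Λ :=
  fun k => ∑ i : Fin D.N, ∑ j : Fin D.N, D.c i j k • (v i * w j)

/-- the Grassmann envelope -/
def env : Submodule ℚ (Fin D.N → Λ) where
  carrier := {v | ∀ i : Fin D.N, v i ∈ G.part (D.par i)}
  add_mem' := fun ha hb i => (G.part _).add_mem (ha i) (hb i)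
  zero_mem' := fun i => (G.part _).zero_mem
  smul_mem' := fun r _ ha i => (G.part _).smul_mem r (ha i)

lemma coef_ne_zero {k : ℕ} {L : List (ℕ × ℤ)} (h : coef k L ≠ 0) : ∃ p ∈ L, p.1 = k := by
  by_contra hcon
  push Not at hcon
  exact h (coef_eq_zero_of_notMem k L hcon)

variable {D}

lemma rmul_mem (hD : D.Good) {v w : Fin D.N → Λ} (hv : v ∈ env G D) (hw : w ∈ env G D) : rmul D v w ∈ env G D := by
  intro k
  apply Submodule.sum_mem
  intro i _
  apply Submodule.sum_mem
  intro j _
  by_cases h : D.c i j k = 0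
  · rw [h, zero_smul]; exact Submodule.zero_mem _
  · obtain ⟨p, hp, hpk⟩ := coef_ne_zero h
    have h1 := hD.par_add i i.2 j j.2 p hp
    rw [hpk] at h1
    rw [h1]
    rw [← Int.cast_smul_eq_zsmul ℚ]
    exact Submodule.smul_mem _ _ (G.mul_mem (hv i) (hw j))

lemma rmul_add (v w w' : Fin D.N → Λ) : rmul D v (w + w') = rmul D v w + rmul D v w' := by
  funext k
  simp only [rmul, Pi.add_apply, mul_add, smul_add, Finset.sum_add_distrib]

lemma add_rmul (v v' w : Fin D.N → Λ) : rmul D (v + v') w = rmul D v w + rmul D v' w := by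
  funext k
  simp only [rmul, Pi.add_apply, add_mul, smul_add, Finset.sum_add_distrib]

lemma rmul_smul (r : ℚ) (v w : Fin D.N → Λ) : rmul D v (r • w) = r • rmul D v w := by
  funext k
  simp only [rmul, Pi.smul_apply, Finset.smul_sum, mul_smul_comm]
  refine Finset.sum_congr rfl fun i _ => Finset.sum_congr rfl fun j _ => ?_
  rw [smul_comm]

lemma smul_rmul (r : ℚ) (v w : Fin D.N → Λ) : rmul D (r • v) w = r • rmul D v w := by
  funext k
  simp only [rmul, Pi.smul_apply, Finset.smul_sum, smul_mul_assoc]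
  refine Finset.sum_congr rfl fun i _ => Finset.sum_congr rfl fun j _ => ?_
  rw [smul_comm]

/-- associator in components -/
lemma rmul_assoc (hD : D.Good) (v w z : Fin D.N → Λ) (l : Fin D.N) :
    rmul D (rmul D v w) z l - rmul D v (rmul D w z) l =
      ∑ i : Fin D.N, ∑ j : Fin D.N, ∑ k : Fin D.N, coef l (D.A i j k) • (v i * w j * z k) := by
  have h1 : rmul D (rmul D v w) z l =
      ∑ i : Fin D.N, ∑ j : Fin D.N, ∑ k : Fin D.N, (∑ m : Fin D.N, D.c i j m * D.c m k l) • (v i * w j * z k) := by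
    simp only [rmul, Finset.sum_mul, Finset.smul_sum, Finset.sum_smul]
    -- left: sum over m k i j
    rw [Finset.sum_comm]
    -- now k m i j
    have : ∀ k : Fin D.N, (∑ m : Fin D.N, ∑ i : Fin D.N, ∑ j : Fin D.N,
        D.c m k l • (D.c i j m • (v i * w j) * z k)) =
        ∑ i : Fin D.N, ∑ j : Fin D.N, ∑ m : Fin D.N, (D.c i j m * D.c m k l) • (v i * w j * z k) := by
      intro k
      rw [Finset.sum_comm]
      refine Finset.sum_congr rfl fun i _ => ?_
      rw [Finset.sum_comm]
      refine Finset.sum_congr rfl fun j _ => Finset.sum_congr rfl fun m _ => ?_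
      rw [smul_mul_assoc, smul_smul, mul_comm]
    simp only [this]
    rw [Finset.sum_comm]
    refine Finset.sum_congr rfl fun i _ => ?_
    rw [Finset.sum_comm]
  have h2 : rmul D v (rmul D w z) l =
      ∑ i : Fin D.N, ∑ j : Fin D.N, ∑ k : Fin D.N, (∑ m : Fin D.N, D.c j k m * D.c i m l) • (v i * w j * z k) := by
    simp only [rmul, Finset.mul_sum, Finset.smul_sum, Finset.sum_smul]
    -- i m j k
    refine Finset.sum_congr rfl fun i _ => ?_
    rw [Finset.sum_comm]
    refine Finset.sum_congr rfl fun j _ => ?_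
    rw [Finset.sum_comm]
    refine Finset.sum_congr rfl fun k _ => Finset.sum_congr rfl fun m _ => ?_
    rw [mul_smul_comm, smul_smul, mul_assoc, mul_comm (D.c j k m)]
  rw [h1, h2, ← Finset.sum_sub_distrib]
  refine Finset.sum_congr rfl fun i _ => ?_
  rw [← Finset.sum_sub_distrib]
  refine Finset.sum_congr rfl fun j _ => ?_
  rw [← Finset.sum_sub_distrib]
  refine Finset.sum_congr rfl fun k _ => ?_
  rw [← sub_smul, Data.coef_A hD i.2 j.2 k.2]

lemma two_torsion_free {W : Type*} [AddCommGroup W] [Module ℚ W] {s : W} (h : s = -s) : s = 0 := by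
  have h2 : (2 : ℚ) • s = 0 := by
    rw [two_smul]
    nth_rewrite 2 [h]
    simp
  exact (smul_eq_zero.mp h2).resolve_left (by norm_num)

lemma left_alt (hD : D.Good) {v z : Fin D.N → Λ} (hv : v ∈ env G D) (l : Fin D.N) :
    rmul D (rmul D v v) z l = rmul D v (rmul D v z) l := by
  rw [← sub_eq_zero]
  apply two_torsion_free
  rw [rmul_assoc hD]
  conv_lhs => rw [Finset.sum_comm]
  rw [← Finset.sum_neg_distrib]
  refine Finset.sum_congr rfl fun i _ => ?_
  rw [← Finset.sum_neg_distrib]
  refine Finset.sum_congr rfl fun j _ => ?_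
  rw [← Finset.sum_neg_distrib]
  refine Finset.sum_congr rfl fun k _ => ?_
  rw [G.swap (hD.par_le j j.2) (hD.par_le i i.2) (hv j) (hv i)]
  have h := hD.left i i.2 j j.2 k k.2 l
  have h' : coef l (D.A i j k) = - (D.sg i j * coef l (D.A j i k)) := by linarith
  rw [h']
  unfold Data.sg
  rw [mul_comm (D.par j) (D.par i)]
  split_ifs with hh
  · simp
  · simp

lemma right_alt (hD : D.Good) {v z : Fin D.N → Λ} (hz : z ∈ env G D) (l : Fin D.N) :
    rmul D (rmul D v z) z l = rmul D v (rmul D z z) l := by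
  rw [← sub_eq_zero]
  apply two_torsion_free
  rw [rmul_assoc hD, ← Finset.sum_neg_distrib]
  refine Finset.sum_congr rfl fun i _ => ?_
  conv_lhs => rw [Finset.sum_comm]
  rw [← Finset.sum_neg_distrib]
  refine Finset.sum_congr rfl fun j _ => ?_
  rw [← Finset.sum_neg_distrib]
  refine Finset.sum_congr rfl fun k _ => ?_
  rw [mul_assoc, mul_assoc, G.swap (hD.par_le k k.2) (hD.par_le j j.2) (hz k) (hz j)]
  have h := hD.right i i.2 j j.2 k k.2 l
  have h' : coef l (D.A i j k) = - (D.sg j k * coef l (D.A i k j)) := by linarith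
  rw [h']
  unfold Data.sg
  rw [mul_comm (D.par k) (D.par j)]
  split_ifs with hh
  · simp
  · simp

end Envelope
end Pool.Agent.Helper928.AltSuper
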